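import Pool.Agent.Q283.LQ.Stm

/-!
# LQ, BAS1: bases of the S-units and of the classes modulo `Nn y`
-/

set_option autoImplicit false

namespace Pool.Agent.Q150.LQ

open NumberField IsDedekindDomain Filter Topology
open Pool.Agent.Q283.LQ

namespace B1

/-! ## Sets and parities -/

theorem ncard_xor {α : Type} {A B C : Set α} (hA : A.Finite) (hB : B.Finite)
    (h : ∀ v, v ∈ C ↔ (v ∈ A ↔ v ∉ B)) : (C.ncard : ZMod 2) = A.ncard + B.ncard := by
  have h1 : C = (A \ B) ∪ (B \ A) := by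
    ext v
    rw [h, Set.mem_union, Set.mem_sdiff, Set.mem_sdiff]
    tauto
  have h2 : Disjoint (A \ B) (B \ A) := by
    rw [Set.disjoint_left]
    rintro v ⟨h3, _⟩ ⟨_, h5⟩
    exact h5 h3
  have h3 : C.ncard = (A \ B).ncard + (B \ A).ncard := by
    rw [h1]
    exact Set.ncard_union_eq h2 (hA.sdiff) (hB.sdiff)
  have h4 : (A ∩ B).ncard + (A \ B).ncard = A.ncard := Set.ncard_inter_add_ncard_sdiff_eq_ncard A B hA
  have h5 : (B ∩ A).ncard + (B \ A).ncard = B.ncard := Set.ncard_inter_add_ncard_sdiff_eq_ncard B A hB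
  rw [Set.inter_comm] at h5
  have h6 : A.ncard + B.ncard = C.ncard + 2 * (A ∩ B).ncard := by omega
  have h7 : ((A.ncard + B.ncard : ℕ) : ZMod 2) = ((C.ncard + 2 * (A ∩ B).ncard : ℕ) : ZMod 2) := by
    rw [h6]
  push_cast at h7
  rw [h7, show (2 : ZMod 2) = 0 from rfl]
  ring

set_option linter.unusedSectionVars false

variable {F : Type} [Field F] [NumberField F]

theorem not_Od_one {v : HeightOneSpectrum (𝓞 F)} {a : F} (h : v.valuation F a = 1) : ¬ Od v a := by
  rintro ⟨n, hn⟩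
  rw [h, ← WithZero.exp_zero] at hn
  have := WithZero.exp_injective hn
  omega

theorem Od_fin {a : F} (ha : a ≠ 0) : {v : HeightOneSpectrum (𝓞 F) | Od v a}.Finite := by
  refine ((HeightOneSpectrum.Support.finite (𝓞 F) a).union
    (HeightOneSpectrum.Support.finite (𝓞 F) a⁻¹)).subset ?_
  intro v hv
  have h1 : v.valuation F a ≠ 1 := fun h => not_Od_one h hv
  rcases lt_or_gt_of_ne h1 with h2 | h2
  · right
    show 1 < v.valuation F a⁻¹
    rw [map_inv₀]
    exact (one_lt_inv₀ (zero_lt_iff.2 ((Valuation.ne_zero_iff _).2 ha))).2 h2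
  · left
    exact h2

/-- a prime above a rational prime `> y` is not above a rational prime `≤ y` -/
theorem not_Sm {y l : ℕ} (hl : l.Prime) (hy : y < l) {v : HeightOneSpectrum (𝓞 F)}
    (hv : (l : 𝓞 F) ∈ v.asIdeal) : ¬ Sm y v := by
  rintro ⟨m, hm, hmy, hmv⟩
  have hne : m ≠ l := by omega
  have hc : IsCoprime (m : ℤ) (l : ℤ) := Nat.isCoprime_iff_coprime.2 ((Nat.coprime_primes hm hl).2 hne)
  obtain ⟨a, b, hab⟩ := hc
  apply v.isPrime.ne_top
  rw [Ideal.eq_top_iff_one]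
  have h1 : ((a * m + b * l : ℤ) : 𝓞 F) ∈ v.asIdeal := by
    push_cast
    exact v.asIdeal.add_mem (v.asIdeal.mul_mem_left _ hmv) (v.asIdeal.mul_mem_left _ hv)
  rw [hab] at h1
  simpa using h1

theorem exists_above {l : ℕ} (hl : l.Prime) : ∃ v : HeightOneSpectrum (𝓞 F), (l : 𝓞 F) ∈ v.asIdeal := by
  have hnu : ¬ IsUnit ((l : ℕ) : 𝓞 F) := by
    intro hu
    have h1 : IsUnit (algebraMap ℤ (𝓞 F) (l : ℤ)) := by
      rw [eq_intCast, Int.cast_natCast]
      exact hu
    have h2 : IsUnit (l : ℤ) := (isUnit_map_iff (algebraMap ℤ (𝓞 F)) (l : ℤ)).1 h1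
    rw [Int.isUnit_iff_natAbs_eq, Int.natAbs_natCast] at h2
    exact hl.one_lt.ne' h2
  obtain ⟨M, hM, hlM⟩ := exists_max_ideal_of_mem_nonunits hnu
  refine ⟨⟨M, hM.isPrime, ?_⟩, hlM⟩
  rintro rfl
  have h0 : ((l : ℕ) : 𝓞 F) = 0 := by simpa using hlM
  have h1 : l = 0 := by exact_mod_cast h0
  exact hl.ne_zero h1

theorem inf_spec : Infinite (HeightOneSpectrum (𝓞 F)) := by
  choose f hf using fun l : Nat.Primes => exists_above (F := F) l.2
  have : Infinite Nat.Primes := inferInstance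
  refine Infinite.of_injective f ?_
  intro l m hlm
  by_contra hne
  have hne' : (l : ℕ) ≠ m := fun h => hne (Subtype.ext h)
  rcases Nat.lt_or_gt_of_ne hne' with h | h
  · exact not_Sm m.2 h (hf m) ⟨l, l.2, le_rfl, by rw [← hlm]; exact hf l⟩
  · exact not_Sm l.2 h (hf l) ⟨m, m.2, le_rfl, by rw [hlm]; exact hf m⟩

theorem fin_norm (X : ℕ) : {v : HeightOneSpectrum (𝓞 F) | Ideal.absNorm v.asIdeal ≤ X}.Finite := by
  have h1 := Ideal.finite_setOfPred_absNorm_le (S := 𝓞 F) X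
  refine Set.Finite.of_finite_image (f := fun v : HeightOneSpectrum (𝓞 F) => v.asIdeal)
    (h1.subset ?_) ?_
  · rintro _ ⟨v, hv, rfl⟩
    exact hv
  · intro v _ w _ h
    exact HeightOneSpectrum.ext h

theorem norm_tendsto : Tendsto
    (fun X : ℕ => ({v : HeightOneSpectrum (𝓞 F) | Ideal.absNorm v.asIdeal ≤ X}.ncard : ℝ)) atTop atTop := by
  refine tendsto_natCast_atTop_atTop.comp ?_
  rw [tendsto_atTop_atTop]
  intro N
  have := inf_spec (F := F)
  obtain ⟨t, ht⟩ := Infinite.exists_subset_card_eq (HeightOneSpectrum (𝓞 F)) N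
  refine ⟨t.sup (fun v => Ideal.absNorm v.asIdeal), fun X hX => ?_⟩
  rw [← ht, ← Set.ncard_coe_finset]
  refine Set.ncard_le_ncard ?_ (fin_norm X)
  intro v hv
  exact (Finset.le_sup (f := fun v : HeightOneSpectrum (𝓞 F) => Ideal.absNorm v.asIdeal) hv).trans hX

/-- primes with given symbols outside a finite set -/
theorem exists_q (hCHEB : S_CHEB) {m : ℕ} (a : Fin m → F) (ha : ∀ i, a i ≠ 0)
    (hind : ∀ c : Fin m → ZMod 2, IsSquare (mon a c) → c = 0) (e : Fin m → ZMod 2)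
    {T : Set (HeightOneSpectrum (𝓞 F))} (hT : T.Finite) :
    ∃ q, q ∉ T ∧ ∀ i, sb q (a i) = e i := by
  by_contra hcon
  push Not at hcon
  have h1 := hCHEB F m a ha hind e
  have h2 : Tendsto (fun X : ℕ =>
      ({v : HeightOneSpectrum (𝓞 F) | Ideal.absNorm v.asIdeal ≤ X ∧ ∀ i, sb v (a i) = e i}.ncard : ℝ) /
      ({v : HeightOneSpectrum (𝓞 F) | Ideal.absNorm v.asIdeal ≤ X}.ncard : ℝ)) atTop (𝓝 0) := by
    have h3 : Tendsto (fun X : ℕ => (T.ncard : ℝ) *
        (({v : HeightOneSpectrum (𝓞 F) | Ideal.absNorm v.asIdeal ≤ X}.ncard : ℝ))⁻¹) atTop (𝓝 0) := by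
      have := (norm_tendsto (F := F)).inv_tendsto_atTop.const_mul (T.ncard : ℝ)
      rw [mul_zero] at this
      exact this
    refine tendsto_of_tendsto_of_tendsto_of_le_of_le tendsto_const_nhds h3 ?_ ?_
    · intro X
      positivity
    · intro X
      show (_ : ℝ) / _ ≤ _ * _
      rw [div_eq_mul_inv]
      refine mul_le_mul_of_nonneg_right ?_ (by positivity)
      have h4 : {v : HeightOneSpectrum (𝓞 F) | Ideal.absNorm v.asIdeal ≤ X ∧ ∀ i, sb v (a i) = e i} ⊆ T := by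
        rintro v ⟨_, hv⟩
        by_contra hvT
        obtain ⟨i, hi⟩ := hcon v hvT
        exact hi (hv i)
      exact_mod_cast Set.ncard_le_ncard h4 hT
  have h3 : (1 : ℝ) / 2 ^ m = 0 := tendsto_nhds_unique h1 h2
  have h4 : (0 : ℝ) < 1 / 2 ^ m := by positivity
  linarith

/-! ## The symbols -/

theorem sb_mul (hB : S_BAS) {v : HeightOneSpectrum (𝓞 F)} (hv : ¬ Dy v) {a b : F} (ha : a ≠ 0)
    (hb : b ≠ 0) (oa : ¬ Od v a) (ob : ¬ Od v b) : sb v (a * b) = sb v a + sb v b := by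
  obtain ⟨-, h2, h3, -, -, h6⟩ := hB F v
  have key : ∀ x y : F, x ≠ 0 → y ≠ 0 → Lsq v x → Lsq v (x * y) → Lsq v y := by
    intro x y hx hy h7 h8
    have h9 := h2 _ _ (h2 _ _ h7 h8) (h3 x⁻¹ (inv_ne_zero hx))
    have e : x * (x * y) * x⁻¹ ^ 2 = y := by field_simp
    rwa [e] at h9
  unfold sb
  by_cases la : Lsq v a
  · by_cases lb : Lsq v b
    · rw [if_pos la, if_pos lb, if_pos (h2 _ _ la lb)]; rfl
    · rw [if_pos la, if_neg lb, if_neg (fun h => lb (key a b ha hb la h))]; rfl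
  · by_cases lb : Lsq v b
    · rw [if_neg la, if_pos lb, if_neg (fun h => la (key b a hb ha lb (by rwa [mul_comm])))]; rfl
    · rw [if_neg la, if_neg lb, if_pos (h6 hv a b ha hb oa ob la lb)]; rfl

theorem val_mon {f : ℕ} {v : HeightOneSpectrum (𝓞 F)} (u : Fin f → F)
    (hu : ∀ l, v.valuation F (u l) = 1) (c : Fin f → ZMod 2) : v.valuation F (mon u c) = 1 := by
  unfold mon
  rw [map_prod]
  refine Finset.prod_eq_one fun l _ => ?_
  rw [map_pow, hu, one_pow]

theorem mon_ne {f : ℕ} (u : Fin f → F) (hu : ∀ l, u l ≠ 0) (c : Fin f → ZMod 2) : mon u c ≠ 0 := by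
  unfold mon
  exact Finset.prod_ne_zero_iff.2 fun l _ => pow_ne_zero _ (hu l)

theorem sb_one (hB : S_BAS) (v : HeightOneSpectrum (𝓞 F)) : sb v (1 : F) = 0 := by
  unfold sb
  rw [if_pos]
  have := (hB F v).2.2.1 1 one_ne_zero
  rwa [one_pow] at this

theorem sb_mon (hB : S_BAS) {f : ℕ} {v : HeightOneSpectrum (𝓞 F)} (hv : ¬ Dy v) (u : Fin f → F)
    (hu0 : ∀ l, u l ≠ 0) (hu : ∀ l, v.valuation F (u l) = 1) (c : Fin f → ZMod 2) :
    sb v (mon u c) = ∑ l, c l * sb v (u l) := by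
  classical
  unfold mon
  have key : ∀ s : Finset (Fin f), sb v (∏ l ∈ s, u l ^ (c l).val) = ∑ l ∈ s, c l * sb v (u l) := by
    intro s
    induction s using Finset.induction_on with
    | empty => simpa using sb_one hB v
    | insert i s hi ih =>
      rw [Finset.prod_insert hi, Finset.sum_insert hi]
      have hp0 : ∏ l ∈ s, u l ^ (c l).val ≠ 0 := Finset.prod_ne_zero_iff.2 fun l _ => pow_ne_zero _ (hu0 l)
      have hp1 : v.valuation F (∏ l ∈ s, u l ^ (c l).val) = 1 := by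
        rw [map_prod]
        refine Finset.prod_eq_one fun l _ => ?_
        rw [map_pow, hu, one_pow]
      have hi1 : v.valuation F (u i ^ (c i).val) = 1 := by rw [map_pow, hu, one_pow]
      rw [sb_mul hB hv (pow_ne_zero _ (hu0 i)) hp0 (not_Od_one hi1) (not_Od_one hp1), ih]
      congr 1
      obtain ⟨x, hx⟩ : ∃ x, x = c i := ⟨_, rfl⟩
      rw [← hx]
      fin_cases x
      · show sb v (u i ^ 0) = 0 * sb v (u i)
        rw [pow_zero, sb_one hB v, zero_mul]
      · show sb v (u i ^ 1) = 1 * sb v (u i)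
        rw [pow_one, one_mul]
  exact key Finset.univ

/-- products of monomials -/
theorem mon_mul {f : ℕ} (u : Fin f → F) (hu : ∀ l, u l ≠ 0) (c c' : Fin f → ZMod 2) :
    ∃ z : F, z ≠ 0 ∧ mon u c * mon u c' = z ^ 2 * mon u (c + c') := by
  have key : ∀ (x : F) (a b : ZMod 2), x ≠ 0 → ∃ z : F, z ≠ 0 ∧
      x ^ a.val * x ^ b.val = z ^ 2 * x ^ (a + b).val := by
    intro x a b hx
    fin_cases a <;> fin_cases b
    · exact ⟨1, one_ne_zero, by show x ^ 0 * x ^ 0 = 1 ^ 2 * x ^ 0; ring⟩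
    · exact ⟨1, one_ne_zero, by show x ^ 0 * x ^ 1 = 1 ^ 2 * x ^ 1; ring⟩
    · exact ⟨1, one_ne_zero, by show x ^ 1 * x ^ 0 = 1 ^ 2 * x ^ 1; ring⟩
    · exact ⟨x, hx, by show x ^ 1 * x ^ 1 = x ^ 2 * x ^ 0; ring⟩
  choose z hz0 hz using fun l => key (u l) (c l) (c' l) (hu l)
  refine ⟨∏ l, z l, Finset.prod_ne_zero_iff.2 fun l _ => hz0 l, ?_⟩
  unfold mon
  rw [← Finset.prod_mul_distrib, ← Finset.prod_pow, ← Finset.prod_mul_distrib]
  exact Finset.prod_congr rfl fun l _ => hz l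

/-! ## The group `Nn y` -/

theorem Nn_mul (hB : S_BAS) {y : ℕ} {a b : F} (ha : Nn y a) (hb : Nn y b) : Nn y (a * b) := by
  refine ⟨mul_ne_zero ha.1 hb.1, fun v hv => (hB F v).2.1 _ _ (ha.2.1 v hv) (hb.2.1 v hv), fun φ => ?_⟩
  rw [map_mul]
  exact mul_pos (ha.2.2 φ) (hb.2.2 φ)

theorem Nn_sq (hB : S_BAS) (y : ℕ) {a : F} (ha : a ≠ 0) : Nn y (a ^ 2) := by
  refine ⟨pow_ne_zero 2 ha, fun v _ => (hB F v).2.2.1 a ha, fun φ => ?_⟩
  rw [map_pow]
  have : φ a ≠ 0 := (map_ne_zero φ).2 ha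
  positivity

theorem Nn_cancel (hB : S_BAS) {y : ℕ} {a b : F} (ha : a ≠ 0) (h : Nn y (a ^ 2 * b)) : Nn y b := by
  have h1 := Nn_mul hB (Nn_sq hB y (inv_ne_zero ha)) h
  have e : a⁻¹ ^ 2 * (a ^ 2 * b) = b := by field_simp
  rwa [e] at h1

/-! ## The homomorphism `Psi` -/

def AA (y : ℕ) (b c : F) : Set (HeightOneSpectrum (𝓞 F)) := {v | ¬ Sm y v ∧ Od v b ∧ ¬ Lsq v c}

theorem AA_fin (y : ℕ) {b : F} (hb : b ≠ 0) (c : F) : (AA y b c).Finite :=
  (Od_fin hb).subset fun _ hv => hv.2.1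

theorem AA_empty {y : ℕ} {b : F} (hb : ∀ v : HeightOneSpectrum (𝓞 F), ¬ Sm y v → ¬ Od v b) (c : F) :
    AA y b c = ∅ := by
  rw [Set.eq_empty_iff_forall_notMem]
  rintro v ⟨h1, h2, _⟩
  exact hb v h1 h2

noncomputable def Psi (y : ℕ) {f : ℕ} (u : Fin f → F) (b : F) (l : Fin f) : ZMod 2 :=
  ((AA y b (u l)).ncard : ZMod 2)

theorem Psi_mul (hB : S_BAS) (y : ℕ) {f : ℕ} (u : Fin f → F) {b b' : F} (hb : b ≠ 0) (hb' : b' ≠ 0) :
    Psi y u (b * b') = Psi y u b + Psi y u b' := by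
  funext l
  show Psi y u (b * b') l = Psi y u b l + Psi y u b' l
  unfold Psi
  refine ncard_xor (AA_fin y hb _) (AA_fin y hb' _) ?_
  intro v
  have h := (hB F v).2.2.2.1 b b' hb hb'
  unfold AA
  simp only [Set.mem_ofPred_eq]
  tauto

theorem Psi_unit {y : ℕ} {f : ℕ} (u : Fin f → F) {b : F}
    (hb : ∀ v : HeightOneSpectrum (𝓞 F), ¬ Sm y v → ¬ Od v b) : Psi y u b = 0 := by
  funext l
  unfold Psi
  rw [AA_empty hb, Set.ncard_empty]
  rfl

theorem Psi_prime {y : ℕ} {f : ℕ} (u : Fin f → F) {q : HeightOneSpectrum (𝓞 F)} {p : F}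
    (hq : ¬ Sm y q) (h1 : q.valuation F p = WithZero.exp (-1 : ℤ))
    (h2 : ∀ v : HeightOneSpectrum (𝓞 F), ¬ Sm y v → v ≠ q → v.valuation F p = 1) (c : F) :
    ((AA y p c).ncard : ZMod 2) = sb q c := by
  have hO : Od q p := ⟨-1, by rw [h1]; rfl⟩
  unfold sb
  by_cases h : Lsq q c
  · rw [if_pos h]
    have : AA y p c = ∅ := by
      rw [Set.eq_empty_iff_forall_notMem]
      rintro v ⟨h3, h4, h5⟩
      by_cases hv : v = q
      · rw [hv] at h5
        exact h5 h
      · exact not_Od_one (h2 v h3 hv) h4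
    rw [this, Set.ncard_empty]
    rfl
  · rw [if_neg h]
    have : AA y p c = {q} := by
      ext v
      rw [Set.mem_singleton_iff]
      constructor
      · rintro ⟨h3, h4, h5⟩
        by_contra hv
        exact not_Od_one (h2 v h3 hv) h4
      · rintro rfl
        exact ⟨hq, hO, h⟩
    rw [this, Set.ncard_singleton]
    rfl

theorem Psi_pow (hB : S_BAS) (y : ℕ) {f : ℕ} (u : Fin f → F) {b : F} (hb : b ≠ 0) (x : ZMod 2) :
    Psi y u (b ^ x.val) = x • Psi y u b := by
  fin_cases x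
  · show Psi y u (b ^ 0) = (0 : ZMod 2) • Psi y u b
    rw [pow_zero, zero_smul]
    exact Psi_unit u fun v _ => not_Od_one (map_one _)
  · show Psi y u (b ^ 1) = (1 : ZMod 2) • Psi y u b
    rw [pow_one, one_smul]

theorem Psi_mon (hB : S_BAS) (y : ℕ) {f g : ℕ} (u : Fin f → F) (r : Fin g → F) (hr : ∀ l, r l ≠ 0)
    (φ : Fin g → ZMod 2) : Psi y u (mon r φ) = ∑ l, φ l • Psi y u (r l) := by
  classical
  unfold mon
  have key : ∀ s : Finset (Fin g), Psi y u (∏ l ∈ s, r l ^ (φ l).val) = ∑ l ∈ s, φ l • Psi y u (r l) := by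
    intro s
    induction s using Finset.induction_on with
    | empty =>
      rw [Finset.prod_empty, Finset.sum_empty]
      exact Psi_unit u fun v _ => not_Od_one (map_one _)
    | insert i s hi ih =>
      rw [Finset.prod_insert hi, Finset.sum_insert hi,
        Psi_mul hB y u (pow_ne_zero _ (hr i)) (Finset.prod_ne_zero_iff.2 fun l _ => pow_ne_zero _ (hr l)),
        ih, Psi_pow hB y u (hr i)]
  exact key Finset.univ

end B1

open B1 in
/-- **BAS1** -/
theorem bas1 (hBAS : S_BAS) (hLOC : S_LOC) (hSU : S_SU) (hREC : S_REC) (hCHEB : S_CHEB) : S_BAS1 := by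
  intro F _ _
  classical
  obtain ⟨y1, H1⟩ := hSU F
  obtain ⟨y2, H2⟩ := hREC F
  refine ⟨max (max y1 y2) 2, fun y hy => ?_⟩
  have hy1 : y1 ≤ y := ((le_max_left _ _).trans (le_max_left _ _)).trans hy
  have hy2 : y2 ≤ y := ((le_max_right _ _).trans (le_max_left _ _)).trans hy
  have hy3 : 2 ≤ y := (le_max_right _ _).trans hy
  obtain ⟨hp, -, f, u, hf, hu, hind, hfull⟩ := H1 y hy1
  obtain ⟨hSfin, hLOC'⟩ := hLOC F y hy3
  have hREC' := H2 y hy2
  -- the generators of the primes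
  have hex : ∀ q : HeightOneSpectrum (𝓞 F), ∃ p : F, ¬ Sm y q →
      (q.valuation F p = WithZero.exp (-1 : ℤ) ∧
        ∀ v : HeightOneSpectrum (𝓞 F), ¬ Sm y v → v ≠ q → v.valuation F p = 1) := by
    intro q
    by_cases h : Sm y q
    · exact ⟨1, fun h' => absurd h h'⟩
    · obtain ⟨p, hp'⟩ := hp q h
      exact ⟨p, fun _ => hp'⟩
  choose p hpv using hex
  have hu0 : ∀ l, u l ≠ 0 := fun l => (hu l).1
  have hp0 : ∀ q, ¬ Sm y q → p q ≠ 0 := by
    intro q hq h0
    have h1 := (hpv q hq).1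
    rw [h0, map_zero] at h1
    exact WithZero.exp_ne_zero h1.symm
  have hDy : ∀ q : HeightOneSpectrum (𝓞 F), ¬ Sm y q → ¬ Dy q := fun q hq h =>
    hq ⟨2, Nat.prime_two, hy3, by exact_mod_cast h⟩
  have hmonv : ∀ (c : Fin f → ZMod 2) (v : HeightOneSpectrum (𝓞 F)), ¬ Sm y v →
      v.valuation F (mon u c) = 1 := fun c v hv => val_mon u (fun l => (hu l).2 v hv) c
  have hcardA : ∀ b c : F, Nat.card {v : HeightOneSpectrum (𝓞 F) // ¬ Sm y v ∧ Od v b ∧ ¬ Lsq v c} =
      (AA y b c).ncard := fun b c => Nat.card_coe_set_eq (AA y b c)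
  -- Psi vanishes on Nn
  have hPsiN : ∀ b : F, Nn y b → Psi y u b = 0 := by
    intro b hb
    funext l
    have h := hREC' b (u l) hb.1 (hu0 l)
      (fun m hm hym => Or.inr fun v hv => (hu l).2 v (not_Sm hm hym hv)) hb
    rw [hcardA, hcardA, AA_empty (fun v hv => not_Od_one ((hu l).2 v hv)), Set.ncard_empty, add_zero] at h
    show ((AA y b (u l)).ncard : ZMod 2) = 0
    exact (ZMod.natCast_eq_zero_iff_even).2 h
  have hPsip : ∀ q, ¬ Sm y q → Psi y u (p q) = fun l => sb q (u l) := by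
    intro q hq
    funext l
    exact Psi_prime u hq (hpv q hq).1 (hpv q hq).2 (u l)
  have hPsiu : ∀ c, Psi y u (mon u c) = 0 := fun c =>
    Psi_unit u fun v hv => not_Od_one (hmonv c v hv)
  -- the classes of the monomials in `u`
  have hinj : ∀ c : Fin f → ZMod 2, Nn y (mon u c) → c = 0 := by
    intro c hN
    by_contra hc
    obtain ⟨l0, hl0⟩ : ∃ l0, c l0 ≠ 0 := by
      by_contra hcon
      push Not at hcon
      exact hc (funext hcon)
    have hl1 : c l0 = 1 := by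
      have key : ∀ x : ZMod 2, x ≠ 0 → x = 1 := by decide
      exact key _ hl0
    obtain ⟨q, hq, hqs⟩ := exists_q hCHEB u hu0 hind (Pi.single l0 1) hSfin
    have hq' : ¬ Sm y q := hq
    have h := hREC' (mon u c) (p q) (mon_ne u hu0 c) (hp0 q hq')
      (fun m hm hym => Or.inl fun v hv => hmonv c v (not_Sm hm hym hv)) hN
    rw [hcardA, hcardA, AA_empty (fun v hv => not_Od_one (hmonv c v hv)), Set.ncard_empty, zero_add] at h
    have h2 := (ZMod.natCast_eq_zero_iff_even).2 h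
    rw [Psi_prime u hq' (hpv q hq').1 (hpv q hq').2 (mon u c),
      sb_mon hBAS (hDy q hq') u hu0 (fun l => (hu l).2 q hq') c] at h2
    have h3 : ∑ l, c l * sb q (u l) = c l0 := by
      rw [Finset.sum_eq_single l0]
      · rw [hqs, Pi.single_eq_same, mul_one]
      · intro l _ hl
        rw [hqs, Pi.single_eq_of_ne hl, mul_zero]
      · intro h
        exact absurd (Finset.mem_univ _) h
    rw [h3, hl1] at h2
    exact one_ne_zero h2
  -- the elements `r`
  have hq : ∀ l : Fin f, ∃ q : HeightOneSpectrum (𝓞 F), ¬ Sm y q ∧ ∀ i, sb q (u i) = (Pi.single l 1 : Fin f → ZMod 2) i := by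
    intro l
    obtain ⟨q, h1, h2⟩ := exists_q hCHEB u hu0 hind (Pi.single l 1) hSfin
    exact ⟨q, h1, h2⟩
  choose q hqS hqs using hq
  obtain ⟨r, hr⟩ : ∃ r : Fin f → F, r = fun l => p (q l) := ⟨_, rfl⟩
  have hrl : ∀ l, r l = p (q l) := fun l => by rw [hr]
  have hr0 : ∀ l, r l ≠ 0 := fun l => by rw [hrl]; exact hp0 _ (hqS l)
  have hPsir : ∀ φ, Psi y u (mon r φ) = φ := by
    intro φ
    rw [Psi_mon hBAS y u r hr0]
    funext i
    rw [Finset.sum_apply, Finset.sum_eq_single i]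
    · rw [Pi.smul_apply, hrl, hPsip _ (hqS i)]
      show φ i • sb (q i) (u i) = φ i
      rw [hqs, Pi.single_eq_same, smul_eq_mul, mul_one]
    · intro l _ hl
      rw [Pi.smul_apply, hrl, hPsip _ (hqS l)]
      show φ l • sb (q l) (u i) = 0
      rw [hqs, Pi.single_eq_of_ne (Ne.symm hl), smul_zero]
    · intro h
      exact absurd (Finset.mem_univ _) h
  obtain ⟨W, hW⟩ : ∃ W : (Fin f → ZMod 2) × (Fin f → ZMod 2) → F, W = fun x => mon r x.1 * mon u x.2 :=
    ⟨_, rfl⟩
  have hWx : ∀ x, W x = mon r x.1 * mon u x.2 := fun x => by rw [hW]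
  have hW0 : ∀ x, W x ≠ 0 := fun x => by
    rw [hWx]; exact mul_ne_zero (mon_ne r hr0 _) (mon_ne u hu0 _)
  have hPsiW : ∀ x, Psi y u (W x) = x.1 := fun x => by
    rw [hWx, Psi_mul hBAS y u (mon_ne r hr0 _) (mon_ne u hu0 _), hPsir, hPsiu, add_zero]
  have char2 : ∀ a b : Fin f → ZMod 2, a + b = 0 → a = b := by
    intro a b h
    funext i
    have h1 : a i + b i = 0 := congrFun h i
    have key : ∀ s t : ZMod 2, s + t = 0 → s = t := by decide
    exact key _ _ h1
  have hdiff : ∀ x x', Nn y (W x * W x') → x = x' := by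
    intro x x' hN
    have h1 := hPsiN _ hN
    rw [Psi_mul hBAS y u (hW0 x) (hW0 x'), hPsiW, hPsiW] at h1
    have h2 : x.1 = x'.1 := char2 _ _ h1
    obtain ⟨w, hw0, hw⟩ := mon_mul u hu0 x.2 x'.2
    have e : W x * W x' = (mon r x.1 * w) ^ 2 * mon u (x.2 + x'.2) := by
      rw [hWx, hWx, ← h2]
      linear_combination (mon r x.1) ^ 2 * hw
    rw [e] at hN
    have h3 := hinj _ (Nn_cancel hBAS (mul_ne_zero (mon_ne r hr0 _) hw0) hN)
    exact Prod.ext h2 (char2 _ _ h3)
  have hassoc : ∀ (b : F) (x : (Fin f → ZMod 2) × (Fin f → ZMod 2)),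
      b * mon r x.1 * mon u x.2 = b * W x := fun b x => by rw [hWx]; ring
  have hcls : ∀ b : F, b ≠ 0 → ∃! x : (Fin f → ZMod 2) × (Fin f → ZMod 2),
      Nn y (b * mon r x.1 * mon u x.2) := by
    intro b hb
    have hex : ∃ x, Nn y (b * W x) := by
      by_contra hcon
      push Not at hcon
      have hWinj : Function.Injective W := by
        intro x x' h
        apply hdiff
        rw [← h]
        have := Nn_sq hBAS y (hW0 x)
        rwa [sq] at this
      have hnot : b ∉ Finset.univ.image W := by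
        intro h
        obtain ⟨x, -, hx⟩ := Finset.mem_image.1 h
        apply hcon x
        rw [hx]
        have := Nn_sq hBAS y hb
        rwa [sq] at this
      have hcard := hLOC' (insert b (Finset.univ.image W)) (by
        intro c hc
        rcases Finset.mem_insert.1 hc with h | h
        · rw [h]; exact hb
        · obtain ⟨x, -, hx⟩ := Finset.mem_image.1 h
          rw [← hx]; exact hW0 x) (by
        intro c hc c' hc' hne hN
        rcases Finset.mem_insert.1 hc with h | h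
        · rcases Finset.mem_insert.1 hc' with h' | h'
          · exact hne (h.trans h'.symm)
          · obtain ⟨x', -, hx'⟩ := Finset.mem_image.1 h'
            rw [h, ← hx'] at hN
            exact hcon x' hN
        · obtain ⟨x, -, hx⟩ := Finset.mem_image.1 h
          rcases Finset.mem_insert.1 hc' with h' | h'
          · rw [h', ← hx, mul_comm] at hN
            exact hcon x hN
          · obtain ⟨x', -, hx'⟩ := Finset.mem_image.1 h'
            rw [← hx, ← hx'] at hN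
            apply hne
            rw [← hx, ← hx', hdiff _ _ hN])
      rw [Finset.card_insert_of_notMem hnot, Finset.card_image_of_injective _ hWinj, Finset.card_univ,
        Fintype.card_prod, Fintype.card_fun, Fintype.card_fin, ZMod.card] at hcard
      have h5 := InfinitePlace.card_add_two_mul_card_eq_rank F
      have h6 : 2 ^ (2 * nS F y + Module.finrank ℚ F + InfinitePlace.nrRealPlaces F) ≤ 2 ^ (2 * f) :=
        Nat.pow_le_pow_right (by norm_num) (by omega)
      have h7 : 2 ^ f * 2 ^ f = 2 ^ (2 * f) := by rw [two_mul, pow_add]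
      omega
    obtain ⟨x, hx⟩ := hex
    refine ⟨x, ?_, ?_⟩
    · show Nn y (b * mon r x.1 * mon u x.2)
      rw [hassoc]; exact hx
    · intro x' hx'
      rw [hassoc] at hx'
      apply hdiff
      have h1 := Nn_mul hBAS hx' hx
      have e : b * W x' * (b * W x) = b ^ 2 * (W x' * W x) := by ring
      rw [e] at h1
      exact Nn_cancel hBAS hb h1
  refine ⟨f, u, r, p, ⟨hy3, hu0, hr0, fun l v hv => (hu l).2 v hv, hind, hfull, hpv, hcls, ?_⟩, hf⟩
  intro q' hq'
  obtain ⟨x, hx, -⟩ := hcls (p q') (hp0 q' hq')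
  have hx' : Nn y (p q' * mon r x.1 * mon u x.2) := hx
  refine ⟨x.2, ?_⟩
  have h1 := hx'
  rw [hassoc] at h1
  have h2 := hPsiN _ h1
  rw [Psi_mul hBAS y u (hp0 q' hq') (hW0 x), hPsiW, hPsip q' hq'] at h2
  have h3 := char2 _ _ h2
  rw [h3]
  exact hx'

end Pool.Agent.Q150.LQ
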