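import Pool.Agent.Q150.LQ.FarD

/-!
# Project LQ of helper145, job FARQ
-/

set_option autoImplicit false
set_option linter.all false

namespace Pool.Agent.Q150.LQ

open Finset Filter
open Pool.Agent.Q145.SZ Pool.Agent.Q145.LQ

theorem w0_lt (X : ℕ) : X < (2 * w0 X) ^ 40 := by
  have h1 : X < 2 ^ (Nat.log 2 X + 1) := Nat.lt_pow_succ_log_self (by norm_num) X
  refine h1.trans_le ?_
  unfold w0
  rw [← pow_succ', ← pow_mul]
  refine Nat.pow_le_pow_right (by norm_num) ?_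
  omega

theorem ev (C D : ℝ) (hC : 0 < C) : ∀ᶠ Y : ℕ in atTop,
    C * Real.log Y ^ 4 ≤ (Y : ℝ) ^ (1 / 20 : ℝ) ∧ D ≤ Real.log Y := by
  have h1 : ∀ᶠ x : ℝ in atTop, C * Real.log x ^ 4 ≤ x ^ (1 / 20 : ℝ) := by
    have h2 := (isLittleO_log_rpow_rpow_atTop (4 : ℝ) (show (0 : ℝ) < 1 / 20 by norm_num)).bound
      (show 0 < 1 / C by positivity)
    filter_upwards [h2, eventually_ge_atTop (1 : ℝ)] with x hx hx1
    have h3 : 0 ≤ Real.log x := Real.log_nonneg hx1
    rw [Real.norm_of_nonneg (by positivity), Real.norm_of_nonneg (by positivity)] at hx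
    have h4 : Real.log x ^ (4 : ℝ) = Real.log x ^ 4 := by
      rw [← Real.rpow_natCast]
      norm_num
    rw [h4] at hx
    calc C * Real.log x ^ 4 ≤ C * (1 / C * x ^ (1 / 20 : ℝ)) := by gcongr
      _ = x ^ (1 / 20 : ℝ) := by field_simp
  have h2 : ∀ᶠ x : ℝ in atTop, D ≤ Real.log x := Real.tendsto_log_atTop.eventually_ge_atTop D
  exact (tendsto_natCast_atTop_atTop (R := ℝ)).eventually (h1.and h2)

/-- job FARQ of project LQ of helper145 -/
theorem t_FARQ : S_FARQ := by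
  classical
  intro hCHT ε hε
  obtain ⟨X₁, hX₁⟩ := hCHT 2
  obtain ⟨X₀, hX₀⟩ := Filter.eventually_atTop.1 (ev (1000 + 1000 / ε) (1 + 1 / ε) (by positivity))
  refine ⟨max (max X₀ X₁) 2, ?_⟩
  intro z Y K H q hY hK hSys hq hz hW b
  have hY0 : X₀ ≤ Y := (le_max_left _ _).trans ((le_max_left _ _).trans hY)
  have hY1 : X₁ ≤ Y := (le_max_right _ _).trans ((le_max_left _ _).trans hY)
  have hY2 : 2 ≤ Y := (le_max_right _ _).trans hY
  obtain ⟨hlog4, hlogD⟩ := hX₀ Y hY0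
  set L : ℝ := Real.log Y with hL
  have hYpos : (0 : ℝ) < Y := by exact_mod_cast (show 0 < Y by omega)
  obtain ⟨r, hr⟩ : ∃ r : ℝ, r = (Y : ℝ) ^ (1 / 20 : ℝ) := ⟨_, rfl⟩
  rw [← hr] at hlog4
  have hr0 : 0 < r := by
    rw [hr]
    exact Real.rpow_pos_of_pos hYpos _
  have hr20 : (Y : ℝ) = r ^ 20 := by
    rw [hr, ← Real.rpow_natCast, ← Real.rpow_mul hYpos.le]
    norm_num
  have hL1 : 1 ≤ L := by
    have : 0 < 1 / ε := by positivity
    linarith
  have hC0 : 0 < 1000 / ε := by positivity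
  have hL3 : L ≤ L ^ 4 := by nlinarith [pow_le_pow_right₀ hL1 (show 1 ≤ 4 by norm_num)]
  have hrL : 1000 * L ^ 4 ≤ r := by nlinarith [pow_pos (zero_lt_one.trans_le hL1) 4]
  have hrLε : 1000 / ε * L ^ 4 ≤ r := by nlinarith [pow_pos (zero_lt_one.trans_le hL1) 4]
  have hr1 : 1000 ≤ r := by linarith
  have hX40 : (((Y ^ 2 : ℕ)) : ℝ) = r ^ 40 := by
    push_cast
    rw [hr20]
    ring
  have hKz : (16 : ℝ) * (K + 1) ≤ z := by exact_mod_cast hK
  have hK0 : (0 : ℝ) ≤ K := Nat.cast_nonneg _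
  have hKL : (K : ℝ) ≤ L := by linarith
  have hz1 : (1 : ℝ) ≤ z := by linarith
  -- the cut-off
  obtain ⟨w, hw⟩ : ∃ w : ℕ, w = w0 (Y ^ 2) := ⟨_, rfl⟩
  have hw1 : r < 2 * (w : ℝ) := by
    have h1 := w0_lt (Y ^ 2)
    rw [← hw] at h1
    have h2 : (((Y ^ 2 : ℕ)) : ℝ) < (((2 * w) ^ 40 : ℕ) : ℝ) := by exact_mod_cast h1
    rw [hX40] at h2
    push_cast at h2
    exact lt_of_pow_lt_pow_left₀ 40 (by positivity) h2
  have hzw' : (z : ℝ) ≤ w := by linarith
  have hzw : z ≤ w := by exact_mod_cast hzw'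
  have hw3 : 3 ≤ w := by omega
  have hw0 : (0 : ℝ) < w := by exact_mod_cast (show 0 < w by omega)
  -- the coefficients
  have hc : ∀ i, |(q i).coeff 2| ≤ z ∧ |(q i).coeff 1| ≤ 8 * (z * Y) ∧ |(q i).coeff 0| ≤ 22 * (z * Y ^ 2) :=
    fun i => coef_bds (hq i) hY2 (hSys.lead i) (hSys.scale i).2 (hSys.val i)
  have hYX : X₁ ≤ Y ^ 2 := hY1.trans (Nat.le_self_pow two_ne_zero Y)
  -- the exceptional sets
  have hB : ∀ i, ∃ B : Finset ℕ, (B.card : ℝ) ≤ r ^ 36 ∧ ∀ s ∈ Icc 1 (H i), s ∉ B →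
      ¬ IsSquare (dq (q i) s) ∧ ∃ l : ℝ, Tendsto (fun N : ℕ => ∑ p ∈ (Ioc w N).filter Nat.Prime,
        (jacobiSym (dq (q i) s) p : ℝ) / p) atTop (nhds l) ∧ |l| ≤ 1 / (4 * L ^ 2) := by
    intro i
    have hdq : ∀ s : ℕ, dq (q i) s = ((q i).coeff 1 ^ 2 - 4 * (q i).coeff 2 * (q i).coeff 0) +
        (-4 * (q i).coeff 2) * (s : ℤ) := by
      intro s
      unfold dq
      ring
    obtain ⟨B, -, hB1, hB2⟩ := hX₁ (Y ^ 2) (H i) ((q i).coeff 1 ^ 2 - 4 * (q i).coeff 2 * (q i).coeff 0)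
      (-4 * (q i).coeff 2) hYX (hSys.scale i).1 (mul_ne_zero (by norm_num) (c2_ne (hq i))) (by
        intro s hs
        rw [← hdq]
        have h1 := dq_bd (hc i) ((mem_Icc.1 hs).2.trans (hSys.scale i).2)
        have h2 : ((|dq (q i) s| : ℤ) : ℝ) ≤ 156 * ((z : ℝ) ^ 2 * (Y : ℝ) ^ 2) := by exact_mod_cast h1
        refine h2.trans ?_
        rw [hX40, ← Real.rpow_natCast r 40, ← Real.rpow_mul hr0.le]
        have h3 : ((40 : ℕ) : ℝ) * (11 / 10) = ((44 : ℕ) : ℝ) := by norm_num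
        rw [h3, Real.rpow_natCast, hr20, ← pow_mul]
        have h4 : (z : ℝ) ^ 2 ≤ L ^ 2 := by gcongr
        have h5 : L ^ 2 ≤ L ^ 4 := pow_le_pow_right₀ hL1 (by norm_num)
        have h6 : 156 * (z : ℝ) ^ 2 ≤ r ^ 4 := by
          have h7 : r ≤ r ^ 4 := le_self_pow₀ (by linarith) (by norm_num)
          linarith
        calc 156 * ((z : ℝ) ^ 2 * r ^ (20 * 2)) = (156 * (z : ℝ) ^ 2) * r ^ 40 := by ring
          _ ≤ r ^ 4 * r ^ 40 := by gcongr
          _ = r ^ 44 := by ring)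
    refine ⟨B, ?_, fun s hs hsB => ?_⟩
    · refine hB1.trans (le_of_eq ?_)
      rw [hX40, ← Real.rpow_natCast r 40, ← Real.rpow_mul hr0.le]
      have h3 : ((40 : ℕ) : ℝ) * (9 / 10) = ((36 : ℕ) : ℝ) := by norm_num
      rw [h3, Real.rpow_natCast]
    · obtain ⟨h1, l, h2, h3⟩ := hB2 s hs hsB
      rw [← hdq] at h1
      rw [← hw] at h2
      simp only [← hdq] at h2
      refine ⟨h1, l, h2, h3.trans (le_of_eq ?_)⟩
      push_cast
      rw [Real.log_pow]
      push_cast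
      rw [← hL]
      ring
  choose B hB1 hB2 using hB
  -- good tuples
  have hgood : ∀ s ∈ SbQ H b, (∀ i, s i ∉ B i) → (∀ i j, i ≠ j →
      ¬ ((q i).coeff 2 * (q j).coeff 1 = (q j).coeff 2 * (q i).coeff 1 ∧
      (q i).coeff 2 * ((q j).coeff 0 + s j) = (q j).coeff 2 * ((q i).coeff 0 + s i))) →
      (AdmQ q s → 0 < singQ q s ∧ Tendsto (singPQ q s) atTop (nhds (singQ q s)) ∧
        |singQ q s - singPQ q s (w0 (Y ^ 2))| ≤ ε * singPQ q s (w0 (Y ^ 2))) := by
    intro s hs hsB hnp hA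
    unfold SbQ at hs
    rw [Fintype.mem_piFinset] at hs
    have hsI : ∀ i, s i ∈ Icc 1 (H i) := by
      intro i
      have h1 := hs i
      unfold cls at h1
      exact (mem_filter.1 h1).1
    have hM : 8004 * (z ^ 4 * Y ^ 4) ≤ Y ^ 8 := by
      have h1 : 10 * z ≤ Y := by
        have h2 : (10 : ℝ) * z ≤ Y := by
          have h3 : r ≤ r ^ 20 := le_self_pow₀ (by linarith) (by norm_num)
          rw [hr20]
          linarith
        exact_mod_cast h2
      have h2 : (10 * z) ^ 4 ≤ Y ^ 4 := Nat.pow_le_pow_left h1 4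
      calc 8004 * (z ^ 4 * Y ^ 4) ≤ (10 * z) ^ 4 * Y ^ 4 := by
            rw [mul_pow]
            have : 8004 * (z ^ 4 * Y ^ 4) ≤ 10 ^ 4 * (z ^ 4 * Y ^ 4) := Nat.mul_le_mul_right _ (by norm_num)
            linarith
        _ ≤ Y ^ 4 * Y ^ 4 := Nat.mul_le_mul_right _ h2
        _ = Y ^ 8 := by ring
    obtain ⟨g1, g2, g3⟩ := good (w := w) hq hc (fun i => ((mem_Icc.1 (hsI i)).2).trans (hSys.scale i).2)
      hw3 hzw (by omega) hM (fun i => (hB2 i (s i) (hsI i) (hsB i)).2)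
      (fun i => (hB2 i (s i) (hsI i) (hsB i)).1) hnp hA
    refine ⟨g1, g2, ?_⟩
    rw [← hw]
    have hβ : (10 * (K : ℝ) ^ 2 / w + 2 * ((K : ℝ) ^ 2 * Real.log ((Y ^ 8 : ℕ) : ℝ) / w)) +
        K * (1 / (4 * L ^ 2)) ≤ 52 * L ^ 3 / r + 1 / (4 * L) := by
      push_cast
      rw [Real.log_pow]
      push_cast
      rw [← hL]
      have h1 : (K : ℝ) ^ 2 ≤ L ^ 2 := by gcongr
      have h2 : K * (1 / (4 * L ^ 2)) ≤ 1 / (4 * L) := by
        calc K * (1 / (4 * L ^ 2)) ≤ L * (1 / (4 * L ^ 2)) := by gcongr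
          _ = 1 / (4 * L) := by
            have : L ≠ 0 := by linarith
            field_simp
      have h3 : 10 * (K : ℝ) ^ 2 / w + 2 * ((K : ℝ) ^ 2 * (8 * L) / w) = (K : ℝ) ^ 2 * (10 + 16 * L) / w := by
        ring
      have h4 : (K : ℝ) ^ 2 * (10 + 16 * L) ≤ 26 * L ^ 3 := by
        calc (K : ℝ) ^ 2 * (10 + 16 * L) ≤ L ^ 2 * (26 * L) := by
              apply mul_le_mul h1 (by linarith) (by positivity) (by positivity)
          _ = 26 * L ^ 3 := by ring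
      have h5 : (K : ℝ) ^ 2 * (10 + 16 * L) / w ≤ 52 * L ^ 3 / r := by
        rw [div_le_div_iff₀ hw0 hr0]
        have h6 : (0 : ℝ) ≤ 26 * L ^ 3 := by positivity
        calc (K : ℝ) ^ 2 * (10 + 16 * L) * r ≤ 26 * L ^ 3 * r := by gcongr
          _ ≤ 26 * L ^ 3 * (2 * w) := by gcongr
          _ = 52 * L ^ 3 * w := by ring
      rw [h3]
      exact add_le_add h5 h2
    have hL34 : L ^ 3 ≤ L ^ 4 := pow_le_pow_right₀ hL1 (by norm_num)
    have e1 : 52 * L ^ 3 / r ≤ 52 / 1000 := by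
      rw [div_le_div_iff₀ hr0 (by norm_num)]
      linarith
    have e2 : 1 / (4 * L) ≤ 1 / 4 := by
      rw [div_le_div_iff₀ (by positivity) (by norm_num)]
      linarith
    have e3 : 52 * L ^ 3 / r ≤ 52 / 1000 * ε := by
      rw [div_le_iff₀ hr0]
      have h7 : 1000 * L ^ 4 ≤ ε * r := by
        have h8 : 1000 / ε * L ^ 4 = 1000 * L ^ 4 / ε := by ring
        rw [h8, div_le_iff₀ hε] at hrLε
        linarith
      nlinarith
    have e4 : 1 / (4 * L) ≤ 1 / 4 * ε := by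
      rw [div_le_iff₀ (by positivity)]
      have h8 : 1 / ε ≤ L := by linarith
      rw [div_le_iff₀ hε] at h8
      linarith
    have h9 := close g1 (singPQ_pos hA w) (g3.trans hβ) (by linarith)
    refine h9.trans ?_
    have hP := singPQ_pos hA w
    nlinarith
  -- sizes of the classes
  have hWr : (PW z : ℝ) ≤ r := by
    have h1 : (PW z : ℝ) ^ 40 ≤ r ^ 40 := by
      refine hW.trans (le_of_eq ?_)
      rw [hr20]
      ring
    exact le_of_pow_le_pow_left₀ (by norm_num) hr0.le h1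
  have hW0 : (0 : ℝ) < PW z := by exact_mod_cast Nat.pos_of_ne_zero (NeZero.ne (PW z))
  have hT : ∀ i, r ^ 39 / 2 ≤ ((cls (H i) (b i)).card : ℝ) := by
    intro i
    have h1 := (abs_le.1 (Pool.Agent.Q261.SZ.card_cls (H i) (b i))).1
    have h2 : r ^ 40 ≤ H i := by
      rw [← hX40]
      exact_mod_cast (hSys.scale i).1
    have h3 : r ^ 39 ≤ (H i : ℝ) / PW z := by
      rw [le_div_iff₀ hW0]
      calc r ^ 39 * PW z ≤ r ^ 39 * r := by gcongr
        _ = r ^ 40 := by ring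
        _ ≤ H i := h2
    have h4 : r ≤ r ^ 39 := le_self_pow₀ (by linarith) (by norm_num)
    linarith
  set N : ℝ := ((SbQ H b).card : ℝ) with hN
  have hN0 : 0 ≤ N := Nat.cast_nonneg _
  have hbad1 : ∀ i, (((SbQ H b).filter fun s => s i ∈ B i).card : ℝ) ≤ 2 / r ^ 3 * N := by
    intro i
    have h1 := count_upd (fun i => cls (H i) (b i)) i (fun s => s i ∈ B i) (B i).card (by
      intro s _
      simp only [Function.update_self]
      exact card_le_card fun t ht => (mem_filter.1 ht).2)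
    have h1' : ((SbQ H b).filter fun s => s i ∈ B i).card * (cls (H i) (b i)).card ≤
        (B i).card * (SbQ H b).card := h1
    have h2 : (((SbQ H b).filter fun s => s i ∈ B i).card : ℝ) * ((cls (H i) (b i)).card : ℝ) ≤
        ((B i).card : ℝ) * N := by
      rw [hN]
      exact_mod_cast h1'
    have h3 : (((SbQ H b).filter fun s => s i ∈ B i).card : ℝ) * (r ^ 39 / 2) ≤ r ^ 36 * N := by
      calc _ ≤ (((SbQ H b).filter fun s => s i ∈ B i).card : ℝ) * ((cls (H i) (b i)).card : ℝ) :=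
            mul_le_mul_of_nonneg_left (hT i) (Nat.cast_nonneg _)
        _ ≤ ((B i).card : ℝ) * N := h2
        _ ≤ r ^ 36 * N := mul_le_mul_of_nonneg_right (hB1 i) hN0
    have h4 : 2 / r ^ 3 * N = (r ^ 36 * N) / (r ^ 39 / 2) := by
      field_simp
    rw [h4, le_div_iff₀ (by positivity)]
    exact h3
  have hbad2 : ∀ x : Fin K × Fin K, x.1 ≠ x.2 → (((SbQ H b).filter fun s =>
      (q x.1).coeff 2 * ((q x.2).coeff 0 + s x.2) = (q x.2).coeff 2 * ((q x.1).coeff 0 + s x.1)).card : ℝ) ≤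
      2 / r ^ 3 * N := by
    rintro ⟨i, j⟩ hij
    dsimp only at hij ⊢
    have h1 := count_upd (fun i => cls (H i) (b i)) j (fun s =>
      (q i).coeff 2 * ((q j).coeff 0 + s j) = (q j).coeff 2 * ((q i).coeff 0 + s i)) 1 (by
      intro s _
      rw [card_le_one]
      intro t ht t' ht'
      rw [mem_filter] at ht ht'
      have e1 := ht.2
      have e2 := ht'.2
      simp only [Function.update_self, Function.update_of_ne hij] at e1 e2
      have e3 : (q i).coeff 2 * ((t : ℤ) - t') = 0 := by linear_combination e1 - e2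
      rcases mul_eq_zero.1 e3 with e4 | e4
      · exact absurd e4 (c2_ne (hq i))
      · have e5 : (t : ℤ) = t' := sub_eq_zero.1 e4
        exact_mod_cast e5)
    have h1' : ((SbQ H b).filter fun s => (q i).coeff 2 * ((q j).coeff 0 + s j) =
        (q j).coeff 2 * ((q i).coeff 0 + s i)).card * (cls (H j) (b j)).card ≤ 1 * (SbQ H b).card := h1
    have h2 : (((SbQ H b).filter fun s => (q i).coeff 2 * ((q j).coeff 0 + s j) =
        (q j).coeff 2 * ((q i).coeff 0 + s i)).card : ℝ) * ((cls (H j) (b j)).card : ℝ) ≤ 1 * N := by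
      rw [hN]
      exact_mod_cast h1'
    have h3 : (((SbQ H b).filter fun s => (q i).coeff 2 * ((q j).coeff 0 + s j) =
        (q j).coeff 2 * ((q i).coeff 0 + s i)).card : ℝ) * (r ^ 39 / 2) ≤ r ^ 36 * N := by
      calc _ ≤ (((SbQ H b).filter fun s => (q i).coeff 2 * ((q j).coeff 0 + s j) =
        (q j).coeff 2 * ((q i).coeff 0 + s i)).card : ℝ) * ((cls (H j) (b j)).card : ℝ) :=
            mul_le_mul_of_nonneg_left (hT j) (Nat.cast_nonneg _)
        _ ≤ 1 * N := h2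
        _ ≤ r ^ 36 * N := mul_le_mul_of_nonneg_right (one_le_pow₀ (by linarith)) hN0
    have h4 : 2 / r ^ 3 * N = (r ^ 36 * N) / (r ^ 39 / 2) := by
      field_simp
    rw [h4, le_div_iff₀ (by positivity)]
    exact h3
  -- the union bound
  have hsub : ((SbQ H b).filter fun s => ¬ (AdmQ q s → 0 < singQ q s ∧
      Tendsto (singPQ q s) atTop (nhds (singQ q s)) ∧
      |singQ q s - singPQ q s (w0 (Y ^ 2))| ≤ ε * singPQ q s (w0 (Y ^ 2)))) ⊆
      (univ.biUnion fun i => (SbQ H b).filter fun s => s i ∈ B i) ∪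
      ((univ : Finset (Fin K × Fin K)).filter (fun x => x.1 ≠ x.2)).biUnion fun x =>
        (SbQ H b).filter fun s => (q x.1).coeff 2 * ((q x.2).coeff 0 + s x.2) =
          (q x.2).coeff 2 * ((q x.1).coeff 0 + s x.1) := by
    intro s hs
    rw [mem_filter] at hs
    by_contra hcon
    rw [mem_union, not_or, mem_biUnion, mem_biUnion] at hcon
    apply hs.2
    refine hgood s hs.1 (fun i hi => ?_) (fun i j hij h => ?_)
    · exact hcon.1 ⟨i, mem_univ _, mem_filter.2 ⟨hs.1, hi⟩⟩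
    · exact hcon.2 ⟨(i, j), mem_filter.2 ⟨mem_univ _, hij⟩, mem_filter.2 ⟨hs.1, h.2⟩⟩
  have hcard := (card_le_card hsub).trans ((card_union_le _ _).trans
    (add_le_add card_biUnion_le card_biUnion_le))
  have hcard' : ((((SbQ H b).filter fun s => ¬ (AdmQ q s → 0 < singQ q s ∧
      Tendsto (singPQ q s) atTop (nhds (singQ q s)) ∧
      |singQ q s - singPQ q s (w0 (Y ^ 2))| ≤ ε * singPQ q s (w0 (Y ^ 2)))).card : ℕ) : ℝ) ≤
      ∑ i : Fin K, (((SbQ H b).filter fun s => s i ∈ B i).card : ℝ) +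
      ∑ x ∈ (univ : Finset (Fin K × Fin K)).filter (fun x => x.1 ≠ x.2), (((SbQ H b).filter fun s =>
        (q x.1).coeff 2 * ((q x.2).coeff 0 + s x.2) = (q x.2).coeff 2 * ((q x.1).coeff 0 + s x.1)).card : ℝ) := by
    exact_mod_cast hcard
  refine hcard'.trans ?_
  have hs1 := sum_le_card_nsmul (univ : Finset (Fin K)) _ _ fun i _ => hbad1 i
  have hs2 := sum_le_card_nsmul ((univ : Finset (Fin K × Fin K)).filter (fun x => x.1 ≠ x.2)) _ _
    fun x hx => hbad2 x (mem_filter.1 hx).2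
  rw [card_univ, Fintype.card_fin, nsmul_eq_mul] at hs1
  rw [nsmul_eq_mul] at hs2
  have hpairs : ((((univ : Finset (Fin K × Fin K)).filter (fun x => x.1 ≠ x.2)).card : ℕ) : ℝ) ≤ (K : ℝ) ^ 2 := by
    have h1 : ((univ : Finset (Fin K × Fin K)).filter (fun x => x.1 ≠ x.2)).card ≤ K * K := by
      refine (card_filter_le _ _).trans ?_
      rw [card_univ, Fintype.card_prod, Fintype.card_fin]
    have h2 : ((((univ : Finset (Fin K × Fin K)).filter (fun x => x.1 ≠ x.2)).card : ℕ) : ℝ) ≤ ((K * K : ℕ) : ℝ) := by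
      exact_mod_cast h1
    refine h2.trans (le_of_eq ?_)
    push_cast
    ring
  have hnn : 0 ≤ 2 / r ^ 3 * N := mul_nonneg (div_nonneg (by norm_num) (pow_nonneg hr0.le 3)) hN0
  have hs3 : ((((univ : Finset (Fin K × Fin K)).filter (fun x => x.1 ≠ x.2)).card : ℕ) : ℝ) * (2 / r ^ 3 * N) ≤
      (K : ℝ) ^ 2 * (2 / r ^ 3 * N) := mul_le_mul_of_nonneg_right hpairs hnn
  have hfin : ((K : ℝ) + (K : ℝ) ^ 2) * (2 / r ^ 3) ≤ ε := by
    have h1 : (K : ℝ) + (K : ℝ) ^ 2 ≤ 2 * L ^ 4 := by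
      have h2 : (K : ℝ) ^ 2 ≤ L ^ 2 := by gcongr
      have h3 : L ^ 2 ≤ L ^ 4 := pow_le_pow_right₀ hL1 (by norm_num)
      linarith
    have h2 : r ≤ r ^ 3 := le_self_pow₀ (by linarith) (by norm_num)
    have h3 : 2 / r ^ 3 ≤ 2 / r := by gcongr
    have h7 : 1000 * L ^ 4 ≤ ε * r := by
      have h8 : 1000 / ε * L ^ 4 = 1000 * L ^ 4 / ε := by ring
      rw [h8, div_le_iff₀ hε] at hrLε
      linarith
    calc ((K : ℝ) + (K : ℝ) ^ 2) * (2 / r ^ 3) ≤ 2 * L ^ 4 * (2 / r) := by gcongr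
      _ = 4 * L ^ 4 / r := by ring
      _ ≤ ε := by
        rw [div_le_iff₀ hr0]
        nlinarith [pow_pos (zero_lt_one.trans_le hL1) 4]
  calc _ ≤ (K : ℝ) * (2 / r ^ 3 * N) + (K : ℝ) ^ 2 * (2 / r ^ 3 * N) := by linarith
    _ = (((K : ℝ) + (K : ℝ) ^ 2) * (2 / r ^ 3)) * N := by ring
    _ ≤ ε * N := mul_le_mul_of_nonneg_right hfin hN0

end Pool.Agent.Q150.LQ
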