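import Pool.Agent.Q145.LQ.Stm2

/-!
# Project LQ of helper145, job FARQ, part A: quadratic polynomials modulo primes, resultants
-/

set_option autoImplicit false
set_option linter.all false

namespace Pool.Agent.Q150.LQ

open Finset

/-- the resultant of two quadratic polynomials -/
def rs (a b c a' b' c' : ℤ) : ℤ := (a * c' - a' * c) ^ 2 - (a * b' - a' * b) * (b * c' - b' * c)

theorem dvd_rs {p a b c a' b' c' n : ℤ} (h : p ∣ a * n ^ 2 + b * n + c)
    (h' : p ∣ a' * n ^ 2 + b' * n + c') : p ∣ rs a b c a' b' c' := by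
  have e : rs a b c a' b' c' =
      ((a * c' - a' * c) * a - (a * b' - a' * b) * (n * a + b)) * (a' * n ^ 2 + b' * n + c') -
      ((a * c' - a' * c) * a' - (a * b' - a' * b) * (n * a' + b')) * (a * n ^ 2 + b * n + c) := by
    unfold rs
    ring
  rw [e]
  exact dvd_sub (h'.mul_left _) (h.mul_left _)

theorem rs_ne {a b c a' b' c' : ℤ} (ha : a ≠ 0) (hsq : ¬ IsSquare (b ^ 2 - 4 * a * c))
    (hnp : ¬ (a * b' = a' * b ∧ a * c' = a' * c)) : rs a b c a' b' c' ≠ 0 := by
  intro h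
  by_cases hQ : a * b' - a' * b = 0
  · have hP : a * c' - a' * c = 0 := by
      unfold rs at h
      rw [hQ, zero_mul, sub_zero] at h
      exact pow_eq_zero_iff (two_ne_zero) |>.mp h
    exact hnp ⟨sub_eq_zero.mp hQ, sub_eq_zero.mp hP⟩
  · have h1 : (b ^ 2 - 4 * a * c) * (a * b' - a' * b) ^ 2 =
        (2 * a * (a * c' - a' * c) - b * (a * b' - a' * b)) ^ 2 - 4 * a * (a * rs a b c a' b' c') := by
      unfold rs
      ring
    rw [h, mul_zero, mul_zero, sub_zero] at h1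
    have h2 : (a * b' - a' * b) ∣ (2 * a * (a * c' - a' * c) - b * (a * b' - a' * b)) := by
      have h3 : (a * b' - a' * b) ^ 2 ∣ (2 * a * (a * c' - a' * c) - b * (a * b' - a' * b)) ^ 2 :=
        ⟨b ^ 2 - 4 * a * c, by rw [← h1]; ring⟩
      exact (Int.pow_dvd_pow_iff two_ne_zero).mp h3
    obtain ⟨t, ht⟩ := h2
    apply hsq
    refine ⟨t, ?_⟩
    rw [ht] at h1
    have h4 : (a * b' - a' * b) ^ 2 ≠ 0 := pow_ne_zero _ hQ
    apply mul_right_cancel₀ h4
    rw [h1]
    ring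

/-- the number of roots of a quadratic polynomial modulo an odd prime -/
theorem roots_card {p : ℕ} (hp : p.Prime) (hp2 : p ≠ 2) {a b c : ℤ} (ha : ¬ (p : ℤ) ∣ a) :
    (((range p).filter fun n : ℕ => (p : ℤ) ∣ a * (n : ℤ) ^ 2 + b * n + c).card : ℤ) =
      1 + jacobiSym (b ^ 2 - 4 * a * c) p := by
  haveI := Fact.mk hp
  rw [← jacobiSym.legendreSym.to_jacobiSym, add_comm, ← legendreSym.card_sqrts p hp2]
  norm_cast
  have h2 : (2 : ZMod p) ≠ 0 := by
    intro h
    have h3 : ((2 : ℕ) : ZMod p) = 0 := by exact_mod_cast h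
    rw [ZMod.natCast_eq_zero_iff] at h3
    exact hp2 ((Nat.prime_dvd_prime_iff_eq hp Nat.prime_two).mp h3)
  have ha0 : (a : ZMod p) ≠ 0 := by
    rw [Ne, ZMod.intCast_zmod_eq_zero_iff_dvd]
    exact ha
  refine card_bij (fun n _ => 2 * (a : ZMod p) * (n : ZMod p) + b) ?_ ?_ ?_
  · intro n hn
    rw [mem_filter, ← ZMod.intCast_zmod_eq_zero_iff_dvd] at hn
    rw [Set.mem_toFinset, Set.mem_ofPred_eq]
    have h3 := hn.2
    push_cast at h3 ⊢
    linear_combination 4 * (a : ZMod p) * h3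
  · intro n hn m hm h
    rw [mem_filter, mem_range] at hn hm
    have h3 : (n : ZMod p) = m := by
      have h4 : (2 * (a : ZMod p)) * ((n : ZMod p) - m) = 0 := by linear_combination h
      rcases mul_eq_zero.mp h4 with h5 | h5
      · exact absurd h5 (mul_ne_zero h2 ha0)
      · exact sub_eq_zero.mp h5
    rw [ZMod.natCast_eq_natCast_iff'] at h3
    rwa [Nat.mod_eq_of_lt hn.1, Nat.mod_eq_of_lt hm.1] at h3
  · intro x hx
    rw [Set.mem_toFinset, Set.mem_ofPred_eq] at hx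
    refine ⟨((x - b) * (2 * (a : ZMod p))⁻¹).val, ?_, ?_⟩
    · rw [mem_filter, mem_range, ← ZMod.intCast_zmod_eq_zero_iff_dvd]
      refine ⟨ZMod.val_lt _, ?_⟩
      push_cast at hx ⊢
      rw [ZMod.natCast_zmod_val]
      have h3 : (4 * (a : ZMod p)) ≠ 0 := by
        have : (4 : ZMod p) = 2 * 2 := by norm_num
        rw [this]
        exact mul_ne_zero (mul_ne_zero h2 h2) ha0
      have h4 : (2 * (a : ZMod p)) * (2 * (a : ZMod p))⁻¹ = 1 :=
        mul_inv_cancel₀ (mul_ne_zero h2 ha0)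
      apply mul_left_cancel₀ h3
      generalize (2 * (a : ZMod p))⁻¹ = w at h4
      have h5 : 2 * (a : ZMod p) * w = 1 := h4
      linear_combination hx + (2 * (a : ZMod p) * w + 1) * (x - b) ^ 2 * h5 + 2 * (b : ZMod p) * (x - b) * h5
    · rw [ZMod.natCast_zmod_val]
      have h4 : (2 * (a : ZMod p)) * (2 * (a : ZMod p))⁻¹ = 1 :=
        mul_inv_cancel₀ (mul_ne_zero h2 ha0)
      linear_combination (x - b) * h4

/-- a quadratic polynomial has at most two roots modulo a prime -/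
theorem roots_le {p : ℕ} (hp : p.Prime) (hp2 : p ≠ 2) {a b c : ℤ} (ha : ¬ (p : ℤ) ∣ a) :
    ((range p).filter fun n : ℕ => (p : ℤ) ∣ a * (n : ℤ) ^ 2 + b * n + c).card ≤ 2 := by
  have h1 := roots_card hp hp2 (b := b) (c := c) ha
  have h2 : jacobiSym (b ^ 2 - 4 * a * c) p ≤ 1 := by
    rcases jacobiSym.trichotomy (b ^ 2 - 4 * a * c) p with h | h | h <;> rw [h] <;> norm_num
  omega

end Pool.Agent.Q150.LQ
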