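import Pool.Agent.Q150.LQ.FarA
import Pool.Agent.Q261.SZ.TAIL

/-!
# Project LQ of helper145, job FARQ, part B: systems of quadratic polynomials
-/

set_option autoImplicit false
set_option linter.all false

namespace Pool.Agent.Q150.LQ

open Finset Filter
open Pool.Agent.Q145.SZ Pool.Agent.Q145.LQ

theorem eval_quad {q : Polynomial ℤ} (h : q.natDegree = 2) (n : ℤ) :
    q.eval n = q.coeff 2 * n ^ 2 + q.coeff 1 * n + q.coeff 0 := by
  rw [Polynomial.eval_eq_sum_range, h]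
  simp only [sum_range_succ, range_zero, sum_empty, pow_zero, pow_one, mul_one, zero_add]
  ring

theorem lc_quad {q : Polynomial ℤ} (h : q.natDegree = 2) : q.leadingCoeff = q.coeff 2 := by
  unfold Polynomial.leadingCoeff
  rw [h]

theorem c2_ne {q : Polynomial ℤ} (h : q.natDegree = 2) : q.coeff 2 ≠ 0 := by
  rw [← lc_quad h, Polynomial.leadingCoeff_ne_zero]
  rintro rfl
  simp at h

/-- the discriminant of `q + s` -/
def dq (q : Polynomial ℤ) (s : ℕ) : ℤ := q.coeff 1 ^ 2 - 4 * q.coeff 2 * (q.coeff 0 + s)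

/-- the resultant of `q + s` and `q' + s'` -/
def rq (q q' : Polynomial ℤ) (s s' : ℕ) : ℤ :=
  rs (q.coeff 2) (q.coeff 1) (q.coeff 0 + s) (q'.coeff 2) (q'.coeff 1) (q'.coeff 0 + s')

/-- the roots of `q + s` modulo `p` -/
def rtq (q : Polynomial ℤ) (s p : ℕ) : Finset ℕ :=
  (range p).filter fun n : ℕ => (p : ℤ) ∣ q.eval (n : ℤ) + s

theorem rtq_eq {q : Polynomial ℤ} (h : q.natDegree = 2) (s p : ℕ) :
    rtq q s p = (range p).filter fun n : ℕ => (p : ℤ) ∣ q.coeff 2 * (n : ℤ) ^ 2 + q.coeff 1 * n + (q.coeff 0 + s) := by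
  unfold rtq
  refine filter_congr fun n _ => ?_
  rw [eval_quad h, add_assoc]

theorem rtq_card {q : Polynomial ℤ} (h : q.natDegree = 2) (s : ℕ) {p : ℕ} (hp : p.Prime) (hp2 : p ≠ 2)
    (ha : ¬ (p : ℤ) ∣ q.coeff 2) : ((rtq q s p).card : ℤ) = 1 + jacobiSym (dq q s) p := by
  rw [rtq_eq h]
  exact roots_card hp hp2 ha

theorem rtq_le {q : Polynomial ℤ} (h : q.natDegree = 2) (s : ℕ) {p : ℕ} (hp : p.Prime) (hp2 : p ≠ 2)
    (ha : ¬ (p : ℤ) ∣ q.coeff 2) : (rtq q s p).card ≤ 2 := by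
  rw [rtq_eq h]
  exact roots_le hp hp2 ha

theorem nuQ_eq {K : ℕ} (q : Fin K → Polynomial ℤ) (s : Fin K → ℕ) (p : ℕ) :
    nuQ q s p = ((univ : Finset (Fin K)).biUnion fun i => rtq (q i) (s i) p).card := by
  unfold nuQ
  congr 1
  ext n
  simp only [mem_filter, mem_biUnion, mem_univ, true_and, rtq]
  constructor
  · rintro ⟨h1, i, h2⟩
    exact ⟨i, h1, h2⟩
  · rintro ⟨i, h1, h2⟩
    exact ⟨h1, i, h2⟩

/-- the pairs of polynomials with a resultant divisible by `p` -/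
def colp {K : ℕ} (q : Fin K → Polynomial ℤ) (s : Fin K → ℕ) (p : ℕ) : Finset (Fin K × Fin K) :=
  univ.filter fun x => x.1 ≠ x.2 ∧ (p : ℤ) ∣ rq (q x.1) (q x.2) (s x.1) (s x.2)

/-- inclusion and exclusion -/
theorem incl_excl {ι : Type} [Fintype ι] [DecidableEq ι] (A : ι → Finset ℕ) :
    (univ.biUnion A).card ≤ ∑ i, (A i).card ∧
    ∑ i, (A i).card ≤ (univ.biUnion A).card +
      ∑ x ∈ (univ : Finset (ι × ι)).filter (fun x => x.1 ≠ x.2), (A x.1 ∩ A x.2).card := by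
  refine ⟨card_biUnion_le, ?_⟩
  set U := univ.biUnion A with hU
  have h1 : ∀ i, (A i).card = ∑ n ∈ U, if n ∈ A i then 1 else 0 := by
    intro i
    rw [← card_filter]
    congr 1
    ext n
    rw [mem_filter]
    constructor
    · intro h
      exact ⟨mem_biUnion.2 ⟨i, mem_univ _, h⟩, h⟩
    · exact fun h => h.2
  have h2 : ∀ x : ι × ι, (A x.1 ∩ A x.2).card = ∑ n ∈ U, if n ∈ A x.1 ∧ n ∈ A x.2 then 1 else 0 := by
    intro x
    rw [← card_filter]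
    congr 1
    ext n
    rw [mem_filter, mem_inter]
    constructor
    · intro h
      exact ⟨mem_biUnion.2 ⟨x.1, mem_univ _, h.1⟩, h⟩
    · exact fun h => h.2
  simp only [h1, h2]
  rw [sum_comm, sum_comm (s := (univ : Finset (ι × ι)).filter (fun x => x.1 ≠ x.2)), card_eq_sum_ones,
    ← sum_add_distrib]
  refine sum_le_sum fun n hn => ?_
  obtain ⟨i₀, -, hi₀⟩ := mem_biUnion.1 hn
  rw [← card_filter]
  have h3 : ∑ x ∈ (univ : Finset (ι × ι)).filter (fun x => x.1 ≠ x.2), (if n ∈ A x.1 ∧ n ∈ A x.2 then 1 else 0) =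
      ((univ.filter fun i => n ∈ A i).offDiag).card := by
    rw [← card_filter]
    congr 1
    ext x
    simp only [mem_filter, mem_univ, true_and, mem_offDiag]
    tauto
  rw [h3, offDiag_card]
  set k := (univ.filter fun i => n ∈ A i).card with hk
  have hk1 : 1 ≤ k := by
    rw [hk]
    exact card_pos.2 ⟨i₀, mem_filter.2 ⟨mem_univ _, hi₀⟩⟩
  rcases Nat.lt_or_ge k 2 with h | h
  · omega
  · have : 2 * k ≤ k * k := Nat.mul_le_mul_right k h
    omega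

theorem nuQ_bds {K : ℕ} {q : Fin K → Polynomial ℤ} (hq : ∀ i, (q i).natDegree = 2) (s : Fin K → ℕ) {p : ℕ}
    (hp : p.Prime) (hp2 : p ≠ 2) (ha : ∀ i, ¬ (p : ℤ) ∣ (q i).coeff 2) :
    (nuQ q s p : ℤ) ≤ K + ∑ i, jacobiSym (dq (q i) (s i)) p ∧
    K + ∑ i, jacobiSym (dq (q i) (s i)) p ≤ nuQ q s p + 2 * ((colp q s p).card : ℤ) ∧
    nuQ q s p ≤ 2 * K := by
  classical
  obtain ⟨h1, h2⟩ := incl_excl fun i => rtq (q i) (s i) p
  rw [← nuQ_eq] at h1 h2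
  have h3 : ((∑ i, (rtq (q i) (s i) p).card : ℕ) : ℤ) = K + ∑ i, jacobiSym (dq (q i) (s i)) p := by
    push_cast
    rw [sum_congr rfl fun i _ => rtq_card (hq i) (s i) hp hp2 (ha i), sum_add_distrib, sum_const, card_univ,
      Fintype.card_fin, nsmul_one]
  have h4 : ∑ x ∈ (univ : Finset (Fin K × Fin K)).filter (fun x => x.1 ≠ x.2),
      (rtq (q x.1) (s x.1) p ∩ rtq (q x.2) (s x.2) p).card ≤ 2 * (colp q s p).card := by
    have h5 : ∀ x ∈ (univ : Finset (Fin K × Fin K)).filter (fun x => x.1 ≠ x.2),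
        (rtq (q x.1) (s x.1) p ∩ rtq (q x.2) (s x.2) p).card ≤
        2 * if (p : ℤ) ∣ rq (q x.1) (q x.2) (s x.1) (s x.2) then 1 else 0 := by
      intro x _
      rcases (rtq (q x.1) (s x.1) p ∩ rtq (q x.2) (s x.2) p).eq_empty_or_nonempty with h | ⟨n, hn⟩
      · rw [h, card_empty]
        exact Nat.zero_le _
      · rw [mem_inter, rtq_eq (hq _), rtq_eq (hq _), mem_filter, mem_filter] at hn
        have hd : (p : ℤ) ∣ rq (q x.1) (q x.2) (s x.1) (s x.2) := dvd_rs hn.1.2 hn.2.2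
        rw [if_pos hd, mul_one]
        exact (card_le_card inter_subset_left).trans (rtq_le (hq _) _ hp hp2 (ha _))
    refine (sum_le_sum h5).trans ?_
    rw [← mul_sum, ← card_filter, filter_filter]
    exact le_rfl
  refine ⟨?_, ?_, ?_⟩
  · rw [← h3]
    exact_mod_cast h1
  · rw [← h3]
    exact_mod_cast h2.trans (Nat.add_le_add_left h4 _)
  · refine h1.trans ?_
    refine (sum_le_card_nsmul univ _ 2 fun i _ => rtq_le (hq i) (s i) hp hp2 (ha i)).trans ?_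
    rw [card_univ, Fintype.card_fin, smul_eq_mul, mul_comm]

/-- the logarithm of the local factor -/
theorem log_locQ {K : ℕ} {q : Fin K → Polynomial ℤ} (hq : ∀ i, (q i).natDegree = 2) (s : Fin K → ℕ) {p : ℕ}
    (hp : p.Prime) (hK : 4 * (K + 1) ≤ p) (ha : ∀ i, ¬ (p : ℤ) ∣ (q i).coeff 2) :
    0 < locQ q s p ∧ |Real.log (locQ q s p) + (∑ i, (jacobiSym (dq (q i) (s i)) p : ℝ)) / p| ≤
      10 * (K : ℝ) ^ 2 / (p : ℝ) ^ 2 + 2 * ((colp q s p).card : ℝ) / p := by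
  have hp2 : p ≠ 2 := by omega
  obtain ⟨h1, h2, h3⟩ := nuQ_bds hq s hp hp2 ha
  have h1' : (nuQ q s p : ℝ) ≤ K + ∑ i, (jacobiSym (dq (q i) (s i)) p : ℝ) := by exact_mod_cast h1
  have h2' : (K : ℝ) + ∑ i, (jacobiSym (dq (q i) (s i)) p : ℝ) ≤ nuQ q s p + 2 * ((colp q s p).card : ℝ) := by
    exact_mod_cast h2
  have h3' : (nuQ q s p : ℝ) ≤ 2 * K := by exact_mod_cast h3
  set J : ℝ := ∑ i, (jacobiSym (dq (q i) (s i)) p : ℝ) with hJ
  set ν : ℝ := (nuQ q s p : ℝ) with hν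
  set N : ℝ := ((colp q s p).card : ℝ) with hN
  have hp0 : (0 : ℝ) < p := by exact_mod_cast hp.pos
  have hKp : 4 * ((K : ℝ) + 1) ≤ p := by exact_mod_cast hK
  have hν0 : 0 ≤ ν := Nat.cast_nonneg _
  have hK0 : (0 : ℝ) ≤ K := Nat.cast_nonneg _
  have hx1 : ν / p ≤ 1 / 2 := by
    rw [div_le_div_iff₀ hp0 two_pos]
    linarith
  have hx0 : 0 ≤ ν / p := by positivity
  have hy1 : 1 / (p : ℝ) ≤ 1 / 2 := by
    rw [div_le_div_iff₀ hp0 two_pos]
    linarith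
  have hy0 : 0 ≤ 1 / (p : ℝ) := by positivity
  have e1 : 0 < 1 - ν / p := by linarith
  have e2 : 0 < 1 - 1 / (p : ℝ) := by linarith
  have hpos : 0 < locQ q s p := by
    unfold locQ
    positivity
  refine ⟨hpos, ?_⟩
  have hlog : Real.log (locQ q s p) = Real.log (1 - ν / p) - K * Real.log (1 - 1 / (p : ℝ)) := by
    unfold locQ
    rw [Real.log_div e1.ne' (pow_pos e2 K).ne', Real.log_pow]
  obtain ⟨ha', hb⟩ := Pool.Agent.Q261.SZ.log_bds hx0 hx1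
  obtain ⟨hc, hd⟩ := Pool.Agent.Q261.SZ.log_bds hy0 hy1
  have f1 : (K : ℝ) * Real.log (1 - 1 / (p : ℝ)) ≤ K * (-(1 / (p : ℝ))) := by gcongr
  have f2 : (K : ℝ) * (-(1 / (p : ℝ)) - 2 * (1 / (p : ℝ)) ^ 2) ≤
      K * Real.log (1 - 1 / (p : ℝ)) := by gcongr
  have f3 : (K : ℝ) ≤ (K : ℝ) ^ 2 := by
    have : K ≤ K ^ 2 := by nlinarith [Nat.zero_le K]
    exact_mod_cast this
  have f4 : (K : ℝ) * (2 * (1 / (p : ℝ)) ^ 2) ≤ 2 * (K : ℝ) ^ 2 / (p : ℝ) ^ 2 := by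
    rw [one_div, inv_pow, ← div_eq_mul_inv, mul_div_assoc', div_le_div_iff_of_pos_right (by positivity)]
    linarith
  have f5 : 2 * (ν / p) ^ 2 ≤ 8 * (K : ℝ) ^ 2 / (p : ℝ) ^ 2 := by
    rw [div_pow, mul_div_assoc', div_le_div_iff_of_pos_right (by positivity)]
    nlinarith
  have f6 : ν / p ≤ (K + J) / p := by gcongr
  have f7 : (K + J) / p ≤ (ν + 2 * N) / p := by gcongr
  have f8 : (K + J) / p = K * (1 / (p : ℝ)) + J / p := by ring
  have f9 : (ν + 2 * N) / p = ν / p + 2 * N / p := by ring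
  have f10 : 10 * (K : ℝ) ^ 2 / (p : ℝ) ^ 2 = 8 * (K : ℝ) ^ 2 / (p : ℝ) ^ 2 + 2 * (K : ℝ) ^ 2 / (p : ℝ) ^ 2 := by ring
  have f11 : 0 ≤ 2 * N / p := by
    have : 0 ≤ N := Nat.cast_nonneg _
    positivity
  have f12 : 0 ≤ 2 * (K : ℝ) ^ 2 / (p : ℝ) ^ 2 := by positivity
  have f13 : 0 ≤ 8 * (K : ℝ) ^ 2 / (p : ℝ) ^ 2 := by positivity
  rw [hlog, abs_le]
  constructor
  · linarith
  · linarith

end Pool.Agent.Q150.LQ
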