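import Pool.Agent.Q150.LQ.FarB
import Pool.Agent.Q261.SZ.FAR

/-!
# Project LQ of helper145, job FARQ, part C: sizes of coefficients, sums over primes
-/

set_option autoImplicit false
set_option linter.all false

namespace Pool.Agent.Q150.LQ

open Finset Filter
open Pool.Agent.Q145.SZ Pool.Agent.Q145.LQ

theorem mulb {x y A B : ℤ} (hx : |x| ≤ A) (hy : |y| ≤ B) : |x * y| ≤ A * B := by
  rw [abs_mul]
  exact mul_le_mul hx hy (abs_nonneg _) ((abs_nonneg _).trans hx)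

theorem addb {x y A B : ℤ} (hx : |x| ≤ A) (hy : |y| ≤ B) : |x + y| ≤ A + B :=
  (abs_add_le x y).trans (add_le_add hx hy)

theorem subb {x y A B : ℤ} (hx : |x| ≤ A) (hy : |y| ≤ B) : |x - y| ≤ A + B :=
  (abs_sub x y).trans (add_le_add hx hy)

/-- sizes of the coefficients -/
theorem coef_bds {z Y H : ℕ} {q : Polynomial ℤ} (hq : q.natDegree = 2) (hY : 2 ≤ Y)
    (hl : q.leadingCoeff.natAbs ≤ z) (hH : H ≤ z * Y ^ 2)
    (hv : ∀ n ∈ Ioc Y (2 * Y), 5 * (H : ℤ) < 4 * q.eval (n : ℤ) ∧ q.eval (n : ℤ) ≤ 2 * H) :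
    |q.coeff 2| ≤ z ∧ |q.coeff 1| ≤ 8 * (z * Y) ∧ |q.coeff 0| ≤ 22 * (z * Y ^ 2) := by
  have ha : |q.coeff 2| ≤ z := by
    rw [← lc_quad hq, Int.abs_eq_natAbs]
    exact_mod_cast hl
  have h1 := hv (2 * Y) (mem_Ioc.2 ⟨by omega, le_rfl⟩)
  have h2 := hv (Y + 1) (mem_Ioc.2 ⟨by omega, by omega⟩)
  rw [eval_quad hq] at h1 h2
  push_cast at h1 h2
  set a := q.coeff 2
  set b := q.coeff 1
  set c := q.coeff 0
  have hY' : (2 : ℤ) ≤ Y := by exact_mod_cast hY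
  have hH' : (H : ℤ) ≤ z * (Y : ℤ) ^ 2 := by exact_mod_cast hH
  have hz0 : (0 : ℤ) ≤ z := Int.natCast_nonneg z
  have hH0 : (0 : ℤ) ≤ H := Int.natCast_nonneg H
  have hzY : (0 : ℤ) ≤ z * (Y : ℤ) ^ 2 := by positivity
  have e1 : |a * (4 * (Y : ℤ) ^ 2 - ((Y : ℤ) + 1) ^ 2)| ≤ z * (3 * (Y : ℤ) ^ 2) := by
    refine mulb ha ?_
    rw [abs_of_nonneg (by nlinarith)]
    nlinarith
  rw [abs_le] at e1
  have e2 : |b * ((Y : ℤ) - 1)| ≤ 8 * (z * Y) * ((Y : ℤ) - 1) := by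
    have e3 : 4 * (z * (Y : ℤ) ^ 2) ≤ 8 * (z * Y) * ((Y : ℤ) - 1) := by
      have : (0 : ℤ) ≤ (z * Y) * ((Y : ℤ) - 2) := mul_nonneg (by positivity) (by linarith)
      nlinarith
    rw [abs_le]
    constructor
    · nlinarith
    · nlinarith
  have hb : |b| ≤ 8 * (z * Y) := by
    rw [abs_mul, abs_of_nonneg (show (0 : ℤ) ≤ Y - 1 by linarith)] at e2
    exact le_of_mul_le_mul_right e2 (by linarith)
  refine ⟨ha, hb, ?_⟩
  have e4 : |a * (2 * (Y : ℤ)) ^ 2| ≤ z * (4 * (Y : ℤ) ^ 2) := by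
    refine mulb ha ?_
    rw [abs_of_nonneg (by positivity)]
    exact le_of_eq (by ring)
  have e5 : |b * (2 * (Y : ℤ))| ≤ 8 * (z * Y) * (2 * Y) := by
    refine mulb hb ?_
    rw [abs_of_nonneg (by positivity)]
  rw [abs_le] at e4 e5 ⊢
  constructor
  · nlinarith
  · nlinarith

section

variable {z Y H : ℕ} {q : Polynomial ℤ}

theorem dq_bd (hc : |q.coeff 2| ≤ z ∧ |q.coeff 1| ≤ 8 * (z * Y) ∧ |q.coeff 0| ≤ 22 * (z * Y ^ 2))
    {s : ℕ} (hs : s ≤ z * Y ^ 2) : |dq q s| ≤ 156 * (z ^ 2 * Y ^ 2) := by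
  obtain ⟨h2, h1, h0⟩ := hc
  have hs' : |(s : ℤ)| ≤ z * (Y : ℤ) ^ 2 := by
    rw [abs_of_nonneg (Int.natCast_nonneg s)]
    exact_mod_cast hs
  have e1 := mulb h1 h1
  have e2 := mulb h2 (addb h0 hs')
  have e3 : |(4 : ℤ)| ≤ 4 := by norm_num
  have e4 := subb e1 (mulb e3 e2)
  have e5 : dq q s = q.coeff 1 * q.coeff 1 - 4 * (q.coeff 2 * (q.coeff 0 + s)) := by
    unfold dq
    ring
  rw [e5]
  refine e4.trans (le_of_eq ?_)
  ring

theorem rq_bd {q' : Polynomial ℤ}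
    (hc : |q.coeff 2| ≤ z ∧ |q.coeff 1| ≤ 8 * (z * Y) ∧ |q.coeff 0| ≤ 22 * (z * Y ^ 2))
    (hc' : |q'.coeff 2| ≤ z ∧ |q'.coeff 1| ≤ 8 * (z * Y) ∧ |q'.coeff 0| ≤ 22 * (z * Y ^ 2))
    {s s' : ℕ} (hs : s ≤ z * Y ^ 2) (hs' : s' ≤ z * Y ^ 2) :
    |rq q q' s s'| ≤ 8004 * (z ^ 4 * Y ^ 4) := by
  obtain ⟨h2, h1, h0⟩ := hc
  obtain ⟨k2, k1, k0⟩ := hc'
  have hs1 : |(s : ℤ)| ≤ z * (Y : ℤ) ^ 2 := by
    rw [abs_of_nonneg (Int.natCast_nonneg s)]
    exact_mod_cast hs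
  have hs2 : |(s' : ℤ)| ≤ z * (Y : ℤ) ^ 2 := by
    rw [abs_of_nonneg (Int.natCast_nonneg s')]
    exact_mod_cast hs'
  have c0 := addb h0 hs1
  have c0' := addb k0 hs2
  have eP := subb (mulb h2 c0') (mulb k2 c0)
  have eQ := subb (mulb h2 k1) (mulb k2 h1)
  have eS := subb (mulb h1 c0') (mulb k1 c0)
  have e := subb (mulb eP eP) (mulb eQ eS)
  have e5 : rq q q' s s' = (q.coeff 2 * (q'.coeff 0 + s') - q'.coeff 2 * (q.coeff 0 + s)) *
      (q.coeff 2 * (q'.coeff 0 + s') - q'.coeff 2 * (q.coeff 0 + s)) -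
      (q.coeff 2 * q'.coeff 1 - q'.coeff 2 * q.coeff 1) *
      (q.coeff 1 * (q'.coeff 0 + s') - q'.coeff 1 * (q.coeff 0 + s)) := by
    unfold rq rs
    ring
  rw [e5]
  refine e.trans (le_of_eq ?_)
  ring

end

/-- the number of colliding pairs, summed over the primes -/
theorem sum_colp {K : ℕ} {q : Fin K → Polynomial ℤ} {s : Fin K → ℕ} {w n M : ℕ} (hw : 3 ≤ w)
    (hne : ∀ i j, i ≠ j → rq (q i) (q j) (s i) (s j) ≠ 0)
    (hle : ∀ i j, (rq (q i) (q j) (s i) (s j)).natAbs ≤ M) :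
    ∑ p ∈ (Ioc w n).filter Nat.Prime, ((colp q s p).card : ℝ) / p ≤ (K : ℝ) ^ 2 * Real.log M / w := by
  classical
  have hw0 : (0 : ℝ) < w := by exact_mod_cast (show 0 < w by omega)
  have h1 : ∀ p ∈ (Ioc w n).filter Nat.Prime, ((colp q s p).card : ℝ) / p ≤ ((colp q s p).card : ℝ) / w := by
    intro p hp
    rw [mem_filter, mem_Ioc] at hp
    have : (w : ℝ) ≤ p := by exact_mod_cast hp.1.1.le
    gcongr
  refine (sum_le_sum h1).trans ?_
  rw [← sum_div]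
  refine div_le_div_of_nonneg_right ?_ hw0.le
  have h2 : ∑ p ∈ (Ioc w n).filter Nat.Prime, ((colp q s p).card : ℝ) =
      ∑ x : Fin K × Fin K, ((((Ioc w n).filter Nat.Prime).filter
        fun p : ℕ => x.1 ≠ x.2 ∧ (p : ℤ) ∣ rq (q x.1) (q x.2) (s x.1) (s x.2)).card : ℝ) := by
    have h3 : ∀ p : ℕ, ((colp q s p).card : ℝ) =
        ∑ x : Fin K × Fin K, if x.1 ≠ x.2 ∧ (p : ℤ) ∣ rq (q x.1) (q x.2) (s x.1) (s x.2) then (1 : ℝ) else 0 := by
      intro p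
      rw [sum_boole]
      rfl
    simp only [h3]
    rw [sum_comm]
    refine sum_congr rfl fun x _ => ?_
    rw [sum_boole]
  rw [h2]
  have h3 : ∀ x ∈ (univ : Finset (Fin K × Fin K)), ((((Ioc w n).filter Nat.Prime).filter
        fun p : ℕ => x.1 ≠ x.2 ∧ (p : ℤ) ∣ rq (q x.1) (q x.2) (s x.1) (s x.2)).card : ℝ) ≤ Real.log M := by
    intro x _
    by_cases hx : x.1 = x.2
    · rw [filter_false_of_mem]
      · rw [card_empty, Nat.cast_zero]
        exact Real.log_natCast_nonneg M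
      · intro p _ h
        exact h.1 hx
    · have hne' : (rq (q x.1) (q x.2) (s x.1) (s x.2)).natAbs ≠ 0 := by
        rw [Int.natAbs_ne_zero]
        exact hne _ _ hx
      have h4 := Pool.Agent.Q261.SZ.card_primes (rq (q x.1) (q x.2) (s x.1) (s x.2)).natAbs hne' (Y := (w : ℝ))
        (by exact_mod_cast hw) (((Ioc w n).filter Nat.Prime).filter
        fun p : ℕ => x.1 ≠ x.2 ∧ (p : ℤ) ∣ rq (q x.1) (q x.2) (s x.1) (s x.2)) (fun p hp => by
          rw [mem_filter, mem_filter, mem_Ioc] at hp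
          exact ⟨hp.1.2, Int.natCast_dvd.1 hp.2.2, by exact_mod_cast hp.1.1.1.le⟩)
      refine h4.trans (Real.log_le_log (by exact_mod_cast Nat.pos_of_ne_zero hne') ?_)
      exact_mod_cast hle x.1 x.2
  refine (sum_le_card_nsmul _ _ _ h3).trans ?_
  rw [card_univ, Fintype.card_prod, Fintype.card_fin, nsmul_eq_mul]
  push_cast
  exact le_of_eq (by ring)

/-- convergence of a product with an oscillating part -/
theorem far_osc (F e g : ℕ → ℝ) (Y : ℕ) (B l : ℝ) (hloc : ∀ p : ℕ, p.Prime → Y < p → 0 < F p)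
    (hlog : ∀ p : ℕ, p.Prime → Y < p → Real.log (F p) = e p - g p)
    (hposY : 0 < ∏ p ∈ (Icc 1 Y).filter Nat.Prime, F p)
    (hsumF : ∀ n : ℕ, ∑ p ∈ (Ioc Y n).filter Nat.Prime, |e p| ≤ B)
    (hg : Tendsto (fun n => ∑ p ∈ (Ioc Y n).filter Nat.Prime, g p) atTop (nhds l)) :
    ∃ L : ℝ, 0 < L ∧ Tendsto (fun w => ∏ p ∈ (Icc 1 w).filter Nat.Prime, F p) atTop (nhds L) ∧
      |Real.log (L / ∏ p ∈ (Icc 1 Y).filter Nat.Prime, F p)| ≤ B + |l| := by
  set f : ℕ → ℝ := fun p => if p.Prime ∧ Y < p then e p else 0 with hf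
  have hset : ∀ n : ℕ, (range (n + 1)).filter (fun p => p.Prime ∧ Y < p) =
      (Ioc Y n).filter Nat.Prime := by
    intro n
    ext p
    rw [mem_filter, mem_filter, mem_range, mem_Ioc]
    constructor
    · rintro ⟨h1, h2, h3⟩
      exact ⟨⟨h3, by omega⟩, h2⟩
    · rintro ⟨⟨h1, h2⟩, h3⟩
      exact ⟨by omega, h3, h1⟩
  have hsum : ∀ n : ℕ, ∑ p ∈ range (n + 1), f p = ∑ p ∈ (Ioc Y n).filter Nat.Prime, e p := by
    intro n
    rw [hf, ← sum_filter, hset]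
  have habs : ∀ n : ℕ, ∑ p ∈ range n, |f p| ≤ B := by
    intro n
    have h1 : ∑ p ∈ range n, |f p| ≤ ∑ p ∈ range (n + 1), |f p| :=
      sum_le_sum_of_subset_of_nonneg (range_mono (Nat.le_succ n)) fun _ _ _ => abs_nonneg _
    refine h1.trans ?_
    have h2 : ∑ p ∈ range (n + 1), |f p| = ∑ p ∈ (Ioc Y n).filter Nat.Prime, |e p| := by
      rw [← hset, sum_filter]
      refine sum_congr rfl fun p _ => ?_
      rw [hf]
      dsimp only
      split_ifs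
      · rfl
      · exact abs_zero
    rw [h2]
    exact hsumF n
  have hS : Summable fun p => |f p| := summable_of_sum_range_le (fun _ => abs_nonneg _) habs
  have hS' : Summable f := hS.of_abs
  refine ⟨(∏ p ∈ (Icc 1 Y).filter Nat.Prime, F p) * Real.exp ((∑' p, f p) - l),
    mul_pos hposY (Real.exp_pos _), ?_, ?_⟩
  · have h1 : Tendsto (fun n : ℕ => ∑ p ∈ range (n + 1), f p) atTop (nhds (∑' p, f p)) :=
      (tendsto_add_atTop_iff_nat 1).2 hS'.hasSum.tendsto_sum_nat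
    have h2 := ((Real.continuous_exp.tendsto _).comp (h1.sub hg)).const_mul
      (∏ p ∈ (Icc 1 Y).filter Nat.Prime, F p)
    refine h2.congr' ?_
    filter_upwards [eventually_ge_atTop Y] with w hw
    rw [Function.comp_apply, hsum, ← sum_sub_distrib, Real.exp_sum]
    have h3 : (Icc 1 w).filter Nat.Prime = (Icc 1 Y).filter Nat.Prime ∪ (Ioc Y w).filter Nat.Prime := by
      rw [← filter_union]
      congr 1
      ext p
      rw [mem_union, mem_Icc, mem_Icc, mem_Ioc]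
      omega
    have h4 : Disjoint ((Icc 1 Y).filter Nat.Prime) ((Ioc Y w).filter Nat.Prime) := by
      refine disjoint_filter_filter ?_
      rw [disjoint_left]
      intro p h5 h6
      rw [mem_Icc] at h5
      rw [mem_Ioc] at h6
      omega
    rw [h3, prod_union h4]
    congr 1
    refine prod_congr rfl fun p hp => ?_
    rw [mem_filter, mem_Ioc] at hp
    rw [← hlog p hp.2 hp.1.1]
    exact Real.exp_log (hloc p hp.2 hp.1.1)
  · rw [mul_div_cancel_left₀ _ hposY.ne', Real.log_exp]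
    have h1 : |∑' p, f p| ≤ ∑' p, |f p| := by
      have := norm_tsum_le_tsum_norm (f := f) (by simpa [Real.norm_eq_abs] using hS)
      simpa [Real.norm_eq_abs] using this
    refine (abs_sub _ _).trans (add_le_add_left (h1.trans (Real.tsum_le_of_sum_range_le (fun _ => abs_nonneg _) habs)) _)

end Pool.Agent.Q150.LQ
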