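import Pool.Agent.Q150.LQ.FarC

/-!
# Project LQ of helper145, job FARQ, part D: the good systems
-/

set_option autoImplicit false
set_option linter.all false

namespace Pool.Agent.Q150.LQ

open Finset Filter
open Pool.Agent.Q145.SZ Pool.Agent.Q145.LQ

theorem locQ_pos {K : ℕ} {q : Fin K → Polynomial ℤ} {s : Fin K → ℕ} {p : ℕ} (hp : p.Prime)
    (h : nuQ q s p < p) : 0 < locQ q s p := by
  have hp0 : (0 : ℝ) < p := by exact_mod_cast hp.pos
  have h1 : (nuQ q s p : ℝ) < p := by exact_mod_cast h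
  have h2 : (1 : ℝ) < p := by exact_mod_cast hp.one_lt
  have h3 : 0 < 1 - (nuQ q s p : ℝ) / p := by
    rw [sub_pos, div_lt_one hp0]
    exact h1
  have h4 : 0 < 1 - 1 / (p : ℝ) := by
    rw [sub_pos, div_lt_one hp0]
    exact h2
  unfold locQ
  positivity

theorem singPQ_pos {K : ℕ} {q : Fin K → Polynomial ℤ} {s : Fin K → ℕ} (h : AdmQ q s) (w : ℕ) :
    0 < singPQ q s w := by
  unfold singPQ
  refine prod_pos fun p hp => ?_
  rw [mem_filter] at hp
  exact locQ_pos hp.2 (h p hp.2)

theorem good {K : ℕ} {q : Fin K → Polynomial ℤ} {s : Fin K → ℕ} {z Y w M : ℕ} {η : ℝ}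
    (hq : ∀ i, (q i).natDegree = 2)
    (hc : ∀ i, |(q i).coeff 2| ≤ z ∧ |(q i).coeff 1| ≤ 8 * (z * Y) ∧ |(q i).coeff 0| ≤ 22 * (z * Y ^ 2))
    (hs : ∀ i, s i ≤ z * Y ^ 2) (hw : 3 ≤ w) (hzw : z ≤ w) (hKw : 4 * (K + 1) ≤ w)
    (hM : 8004 * (z ^ 4 * Y ^ 4) ≤ M)
    (hJ : ∀ i, ∃ l : ℝ, Tendsto (fun N : ℕ => ∑ p ∈ (Ioc w N).filter Nat.Prime,
      (jacobiSym (dq (q i) (s i)) p : ℝ) / p) atTop (nhds l) ∧ |l| ≤ η)
    (hsq : ∀ i, ¬ IsSquare (dq (q i) (s i)))
    (hnp : ∀ i j, i ≠ j → ¬ ((q i).coeff 2 * (q j).coeff 1 = (q j).coeff 2 * (q i).coeff 1 ∧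
      (q i).coeff 2 * ((q j).coeff 0 + s j) = (q j).coeff 2 * ((q i).coeff 0 + s i)))
    (hA : AdmQ q s) :
    0 < singQ q s ∧ Tendsto (singPQ q s) atTop (nhds (singQ q s)) ∧
      |Real.log (singQ q s / singPQ q s w)| ≤
        (10 * (K : ℝ) ^ 2 / w + 2 * ((K : ℝ) ^ 2 * Real.log M / w)) + K * η := by
  choose l hl1 hl2 using hJ
  have hcop : ∀ p : ℕ, w < p → ∀ i, ¬ (p : ℤ) ∣ (q i).coeff 2 := by
    intro p hp i h
    have h1 := Int.natCast_dvd.1 h
    have h2 := Nat.le_of_dvd (Int.natAbs_pos.2 (c2_ne (hq i))) h1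
    have h3 := (hc i).1
    rw [Int.abs_eq_natAbs] at h3
    have h4 : ((q i).coeff 2).natAbs ≤ z := by exact_mod_cast h3
    omega
  have hw0 : (0 : ℝ) < w := by exact_mod_cast (show 0 < w by omega)
  set g : ℕ → ℝ := fun p => (∑ i, (jacobiSym (dq (q i) (s i)) p : ℝ)) / p with hg
  set e : ℕ → ℝ := fun p => Real.log (locQ q s p) + g p with he
  have hg1 : Tendsto (fun n => ∑ p ∈ (Ioc w n).filter Nat.Prime, g p) atTop (nhds (∑ i, l i)) := by
    have h1 := tendsto_finsetSum (univ : Finset (Fin K)) fun i _ => hl1 i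
    refine h1.congr fun n => ?_
    rw [sum_comm]
    refine sum_congr rfl fun p _ => ?_
    rw [hg]
    dsimp only
    rw [sum_div]
  have hne : ∀ i j, i ≠ j → rq (q i) (q j) (s i) (s j) ≠ 0 := by
    intro i j hij
    exact rs_ne (c2_ne (hq i)) (hsq i) (hnp i j hij)
  have hle : ∀ i j, (rq (q i) (q j) (s i) (s j)).natAbs ≤ M := by
    intro i j
    have h1 := rq_bd (hc i) (hc j) (hs i) (hs j)
    rw [Int.abs_eq_natAbs] at h1
    have h2 : (rq (q i) (q j) (s i) (s j)).natAbs ≤ 8004 * (z ^ 4 * Y ^ 4) := by exact_mod_cast h1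
    exact h2.trans hM
  have hsum : ∀ n : ℕ, ∑ p ∈ (Ioc w n).filter Nat.Prime, |e p| ≤
      10 * (K : ℝ) ^ 2 / w + 2 * ((K : ℝ) ^ 2 * Real.log M / w) := by
    intro n
    have h1 : ∀ p ∈ (Ioc w n).filter Nat.Prime, |e p| ≤
        10 * (K : ℝ) ^ 2 * ((p : ℝ) ^ 2)⁻¹ + 2 * (((colp q s p).card : ℝ) / p) := by
      intro p hp
      rw [mem_filter, mem_Ioc] at hp
      have h2 := (log_locQ hq s hp.2 (by omega) (hcop p hp.1.1)).2
      refine h2.trans (le_of_eq ?_)
      rw [div_eq_mul_inv, mul_div_assoc]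
    refine (sum_le_sum h1).trans ?_
    rw [sum_add_distrib, ← mul_sum, ← mul_sum]
    have h3 := Pool.Agent.Q261.SZ.sum_inv_sq w n (by omega) ((Ioc w n).filter Nat.Prime) (filter_subset _ _)
    have h4 := sum_colp (n := n) hw hne hle
    have h5 : 10 * (K : ℝ) ^ 2 * ∑ p ∈ (Ioc w n).filter Nat.Prime, ((p : ℝ) ^ 2)⁻¹ ≤
        10 * (K : ℝ) ^ 2 / w := by
      rw [div_eq_mul_inv]
      gcongr
    linarith
  obtain ⟨L, hL0, hL1, hL2⟩ := far_osc (locQ q s) e g w
    (10 * (K : ℝ) ^ 2 / w + 2 * ((K : ℝ) ^ 2 * Real.log M / w)) (∑ i, l i)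
    (fun p hp hwp => (log_locQ hq s hp (by omega) (hcop p hwp)).1)
    (fun p hp hwp => by
      rw [he]
      dsimp only
      ring)
    (singPQ_pos hA w) hsum hg1
  have hlim : Tendsto (singPQ q s) atTop (nhds L) := hL1
  have hsing : singQ q s = L := hlim.limUnder_eq
  rw [hsing]
  refine ⟨hL0, hlim, hL2.trans ?_⟩
  refine add_le_add le_rfl ?_
  refine (abs_sum_le_sum_abs _ _).trans ?_
  refine (sum_le_card_nsmul _ _ η fun i _ => hl2 i).trans ?_
  rw [card_univ, Fintype.card_fin, nsmul_eq_mul]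

/-- from the logarithm to the difference -/
theorem close {A P β : ℝ} (hA : 0 < A) (hP : 0 < P) (h : |Real.log (A / P)| ≤ β) (hβ : β ≤ 1) :
    |A - P| ≤ 2 * β * P := by
  have h1 : A = P * Real.exp (Real.log (A / P)) := by
    rw [Real.exp_log (div_pos hA hP)]
    field_simp
  have h2 := Real.abs_exp_sub_one_le (h.trans hβ)
  have h3 : A - P = P * (Real.exp (Real.log (A / P)) - 1) := by
    rw [mul_sub, mul_one, ← h1]
  rw [h3, abs_mul, abs_of_pos hP]
  nlinarith

/-- double counting in a product set -/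
theorem count_upd {K : ℕ} (T : Fin K → Finset ℕ) (j : Fin K) (P : (Fin K → ℕ) → Prop) [DecidablePred P] (m : ℕ)
    (h : ∀ s ∈ Fintype.piFinset T, ((T j).filter fun t => P (Function.update s j t)).card ≤ m) :
    ((Fintype.piFinset T).filter P).card * (T j).card ≤ m * (Fintype.piFinset T).card := by
  classical
  have h1 : ((Fintype.piFinset T).filter P).card * (T j).card =
      (((Fintype.piFinset T) ×ˢ T j).filter fun x => P x.1).card := by
    rw [← card_product]
    congr 1
    ext x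
    rw [mem_product, mem_filter, mem_filter, mem_product]
    tauto
  have h2 : (((Fintype.piFinset T) ×ˢ T j).filter fun x => P x.1).card ≤
      (((Fintype.piFinset T) ×ˢ T j).filter fun x => P (Function.update x.1 j x.2)).card := by
    refine card_le_card_of_injOn (fun x => (Function.update x.1 j x.2, x.1 j)) ?_ ?_
    · intro x hx
      rw [mem_coe, mem_filter, mem_product, Fintype.mem_piFinset] at hx
      rw [mem_coe, mem_filter, mem_product, Fintype.mem_piFinset]
      refine ⟨⟨fun k => ?_, hx.1.1 j⟩, ?_⟩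
      · by_cases hk : k = j
        · subst hk
          simp only [Function.update_self]
          exact hx.1.2
        · simp only [Function.update_of_ne hk]
          exact hx.1.1 k
      · simp only [Function.update_idem, Function.update_eq_self]
        exact hx.2
    · intro x _ y _ hxy
      have e1 := (Prod.ext_iff.1 hxy).1
      have e2 := (Prod.ext_iff.1 hxy).2
      dsimp only at e1 e2
      refine Prod.ext ?_ ?_
      · funext k
        by_cases hk : k = j
        · rw [hk]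
          exact e2
        · have := congrFun e1 k
          simpa only [Function.update_of_ne hk] using this
      · have := congrFun e1 j
        simpa only [Function.update_self] using this
  rw [h1]
  refine h2.trans ?_
  have h3 : (((Fintype.piFinset T) ×ˢ T j).filter fun x => P (Function.update x.1 j x.2)).card =
      ∑ s ∈ Fintype.piFinset T, ((T j).filter fun t => P (Function.update s j t)).card := by
    rw [card_filter, sum_product]
    refine sum_congr rfl fun s _ => ?_
    rw [card_filter]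
  rw [h3]
  refine (sum_le_card_nsmul _ _ m h).trans ?_
  rw [smul_eq_mul, mul_comm]

end Pool.Agent.Q150.LQ
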